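import Pool.Agent.helper78.ED.Defs

/-! # Project ED, module LV: large values by duality -/

set_option autoImplicit false

open Complex MeasureTheory

namespace Pool.Agent.helper78.ED

open Pool.Agent.helper84.DM

theorem LV_wg_pos {M : ℝ} {n : ℕ} (hn : 1 ≤ n) : 0 < wg M n := by
  unfold wg
  rw [if_neg (by omega)]
  exact Real.exp_pos _

theorem LV_wg_nonneg (M : ℝ) (n : ℕ) : 0 ≤ wg M n := by
  unfold wg
  split_ifs
  · exact le_rfl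
  · exact (Real.exp_pos _).le

theorem LV_unim (z : ℂ) : ∃ c : ℂ, ‖c‖ ≤ 1 ∧ c * z = (‖z‖ : ℂ) := by
  rcases eq_or_ne z 0 with rfl | hz
  · exact ⟨0, by simp, by simp⟩
  · refine ⟨(‖z‖ : ℂ) / z, ?_, ?_⟩
    · have : ‖z‖ ≠ 0 := norm_ne_zero_iff.2 hz
      simp [this]
    · field_simp

theorem LV_cpow {n : ℕ} (hn : 1 ≤ n) (σ : ℝ) (ρ ρ' : ℂ) :
    ((((n : ℝ) ^ (2 * σ) : ℝ)) : ℂ) * ((n : ℂ) ^ (-ρ) * (starRingEnd ℂ) ((n : ℂ) ^ (-ρ')))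
      = (n : ℂ) ^ (-(((ρ.re + ρ'.re - 2 * σ : ℝ) : ℂ) + ((ρ.im - ρ'.im : ℝ) : ℂ) * I)) := by
  have hn0 : (n : ℂ) ≠ 0 := by exact_mod_cast (by omega : n ≠ 0)
  have hnpos : (0 : ℝ) < n := by exact_mod_cast hn
  have h1 : (starRingEnd ℂ) ((n : ℂ) ^ (-ρ')) = (n : ℂ) ^ (-(starRingEnd ℂ) ρ') := by
    rw [Complex.cpow_def_of_ne_zero hn0, Complex.cpow_def_of_ne_zero hn0, ← Complex.exp_conj]
    congr 1
    rw [map_mul, map_neg]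
    congr 1
    have h : Complex.log (n : ℂ) = ((Real.log n : ℝ) : ℂ) := by
      rw [Complex.ofReal_log hnpos.le, Complex.ofReal_natCast]
    rw [h, Complex.conj_ofReal]
  rw [h1, Complex.ofReal_cpow hnpos.le, Complex.ofReal_natCast, ← Complex.cpow_add _ _ hn0,
    ← Complex.cpow_add _ _ hn0]
  congr 1
  apply Complex.ext
  · simp
    ring
  · simp
    ring

theorem large_values_of (hws : ∀ M : ℝ, 1 ≤ M → Summable (wg M))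
    (Z : Finset ℂ) (S : Finset ℕ) (hS : 0 ∉ S) (b : ℕ → ℂ) (σ M V₀ : ℝ)
    (hM : 1 ≤ M) (hV : 0 ≤ V₀) (hσ : ∀ ρ ∈ Z, σ ≤ ρ.re)
    (hb : ∀ ρ ∈ Z, V₀ ≤ ‖∑ n ∈ S, b n * (n : ℂ) ^ (-ρ)‖) :
    ((Z.card : ℝ) * V₀) ^ 2 ≤ (∑ n ∈ S, ‖b n‖ ^ 2 * (n : ℝ) ^ (-(2 * σ)) / wg M n) *
      ∑ ρ ∈ Z, ∑ ρ' ∈ Z, ‖SS M (ρ.re + ρ'.re - 2 * σ) (ρ.im - ρ'.im)‖ := by
  have hSn : ∀ n ∈ S, 1 ≤ n := fun n hn => by
    rcases Nat.eq_zero_or_pos n with h | h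
    · exact absurd (h ▸ hn) hS
    · exact h
  choose c hc1 hc2 using fun ρ : ℂ => LV_unim (∑ n ∈ S, b n * (n : ℂ) ^ (-ρ))
  set Q : ℕ → ℂ := fun n => ∑ ρ ∈ Z, c ρ * (n : ℂ) ^ (-ρ) with hQ
  -- the sum of the values
  have h1 : (Z.card : ℝ) * V₀ ≤ ∑ n ∈ S, ‖b n‖ * ‖Q n‖ := by
    have e1 : (((∑ ρ ∈ Z, ‖∑ n ∈ S, b n * (n : ℂ) ^ (-ρ)‖ : ℝ)) : ℂ) = ∑ n ∈ S, b n * Q n := by
      rw [Complex.ofReal_sum]
      simp_rw [← hc2]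
      simp only [hQ, Finset.mul_sum]
      rw [Finset.sum_comm]
      refine Finset.sum_congr rfl fun n _ => Finset.sum_congr rfl fun ρ _ => by ring
    have e2 : ∑ ρ ∈ Z, ‖∑ n ∈ S, b n * (n : ℂ) ^ (-ρ)‖ ≤ ∑ n ∈ S, ‖b n‖ * ‖Q n‖ := by
      have e3 : ∑ ρ ∈ Z, ‖∑ n ∈ S, b n * (n : ℂ) ^ (-ρ)‖ = ‖∑ n ∈ S, b n * Q n‖ := by
        rw [← e1, Complex.norm_real, Real.norm_eq_abs, abs_of_nonneg]
        exact Finset.sum_nonneg fun _ _ => norm_nonneg _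
      rw [e3]
      refine (norm_sum_le _ _).trans (Finset.sum_le_sum fun n _ => ?_)
      rw [norm_mul]
    refine le_trans ?_ e2
    rw [← nsmul_eq_mul]
    exact Finset.card_nsmul_le_sum _ _ _ hb
  have h0 : 0 ≤ (Z.card : ℝ) * V₀ := by positivity
  have h2 : ((Z.card : ℝ) * V₀) ^ 2 ≤ (∑ n ∈ S, ‖b n‖ * ‖Q n‖) ^ 2 := pow_le_pow_left₀ h0 h1 2
  refine h2.trans ?_
  have h3 : (∑ n ∈ S, ‖b n‖ * ‖Q n‖) ^ 2 ≤
      (∑ n ∈ S, ‖b n‖ ^ 2 * (n : ℝ) ^ (-(2 * σ)) / wg M n) *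
        ∑ n ∈ S, wg M n * (n : ℝ) ^ (2 * σ) * ‖Q n‖ ^ 2 := by
    refine Finset.sum_sq_le_sum_mul_sum_of_sq_le_mul S (fun n hn => ?_) (fun n hn => ?_)
      (fun n hn => ?_)
    · exact div_nonneg (by positivity) (LV_wg_nonneg M n)
    · have := LV_wg_nonneg M n
      positivity
    · have hn1 := hSn n hn
      have hnpos : (0 : ℝ) < n := by exact_mod_cast hn1
      have hw := LV_wg_pos (M := M) hn1
      have e : (n : ℝ) ^ (-(2 * σ)) * (n : ℝ) ^ (2 * σ) = 1 := by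
        rw [← Real.rpow_add hnpos]; simp
      apply le_of_eq
      rw [div_mul_eq_mul_div, eq_div_iff hw.ne']
      calc (‖b n‖ * ‖Q n‖) ^ 2 * wg M n
          = ‖b n‖ ^ 2 * ‖Q n‖ ^ 2 * wg M n * 1 := by ring
        _ = ‖b n‖ ^ 2 * ‖Q n‖ ^ 2 * wg M n * ((n : ℝ) ^ (-(2 * σ)) * (n : ℝ) ^ (2 * σ)) := by
            rw [e]
        _ = _ := by ring
  refine h3.trans (mul_le_mul_of_nonneg_left ?_ ?_)
  swap
  · exact Finset.sum_nonneg fun n _ => div_nonneg (by positivity) (LV_wg_nonneg M n)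
  -- the dual sum
  have hterm : ∀ ρ ∈ Z, ∀ ρ' ∈ Z, HasSum (fun n : ℕ => (wg M n : ℂ) *
      (n : ℂ) ^ (-(((ρ.re + ρ'.re - 2 * σ : ℝ) : ℂ) + ((ρ.im - ρ'.im : ℝ) : ℂ) * I)))
      (SS M (ρ.re + ρ'.re - 2 * σ) (ρ.im - ρ'.im)) := by
    intro ρ hρ ρ' hρ'
    have hz : 0 ≤ ρ.re + ρ'.re - 2 * σ := by linarith [hσ ρ hρ, hσ ρ' hρ']
    refine Summable.hasSum ?_
    refine Summable.of_norm_bounded (g := fun n => wg M n) (hws M hM) fun n => ?_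
    rcases Nat.eq_zero_or_pos n with rfl | hn
    · simp [wg]
    · have hnpos : (0 : ℝ) < n := by exact_mod_cast hn
      rw [norm_mul, Complex.norm_real, Real.norm_eq_abs, abs_of_nonneg (LV_wg_nonneg M n)]
      have : ‖(n : ℂ) ^ (-(((ρ.re + ρ'.re - 2 * σ : ℝ) : ℂ) + ((ρ.im - ρ'.im : ℝ) : ℂ) * I))‖
          ≤ 1 := by
        rw [Complex.norm_natCast_cpow_of_pos hn]
        have e : (-(((ρ.re + ρ'.re - 2 * σ : ℝ) : ℂ) + ((ρ.im - ρ'.im : ℝ) : ℂ) * I)).re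
            = -(ρ.re + ρ'.re - 2 * σ) := by simp
        rw [e]
        exact Real.rpow_le_one_of_one_le_of_nonpos (by exact_mod_cast hn) (by linarith)
      calc wg M n * _ ≤ wg M n * 1 := mul_le_mul_of_nonneg_left this (LV_wg_nonneg M n)
        _ = wg M n := mul_one _
  have hsum : HasSum (fun n : ℕ => (((wg M n * (n : ℝ) ^ (2 * σ) * ‖Q n‖ ^ 2 : ℝ)) : ℂ))
      (∑ ρ ∈ Z, ∑ ρ' ∈ Z, c ρ * (starRingEnd ℂ) (c ρ') *
        SS M (ρ.re + ρ'.re - 2 * σ) (ρ.im - ρ'.im)) := by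
    have hs : HasSum (fun n : ℕ => ∑ ρ ∈ Z, ∑ ρ' ∈ Z, c ρ * (starRingEnd ℂ) (c ρ') *
        ((wg M n : ℂ) *
      (n : ℂ) ^ (-(((ρ.re + ρ'.re - 2 * σ : ℝ) : ℂ) + ((ρ.im - ρ'.im : ℝ) : ℂ) * I))))
      (∑ ρ ∈ Z, ∑ ρ' ∈ Z, c ρ * (starRingEnd ℂ) (c ρ') *
        SS M (ρ.re + ρ'.re - 2 * σ) (ρ.im - ρ'.im)) :=
      hasSum_sum fun ρ hρ => hasSum_sum fun ρ' hρ' => (hterm ρ hρ ρ' hρ').mul_left _
    convert hs using 1
    funext n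
    rcases Nat.eq_zero_or_pos n with rfl | hn
    · simp [wg]
    · have e1 : (((‖Q n‖ ^ 2 : ℝ)) : ℂ) = Q n * (starRingEnd ℂ) (Q n) := by
        rw [Complex.mul_conj, Complex.normSq_eq_norm_sq]
      rw [Complex.ofReal_mul, Complex.ofReal_mul, e1]
      simp only [hQ, map_sum, map_mul, Finset.sum_mul_sum]
      rw [Finset.mul_sum]
      refine Finset.sum_congr rfl fun ρ _ => ?_
      rw [Finset.mul_sum]
      refine Finset.sum_congr rfl fun ρ' _ => ?_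
      rw [← LV_cpow hn σ ρ ρ']
      ring
  have hre : HasSum (fun n : ℕ => wg M n * (n : ℝ) ^ (2 * σ) * ‖Q n‖ ^ 2)
      (∑ ρ ∈ Z, ∑ ρ' ∈ Z, c ρ * (starRingEnd ℂ) (c ρ') *
        SS M (ρ.re + ρ'.re - 2 * σ) (ρ.im - ρ'.im)).re := by
    have := Complex.hasSum_re hsum
    simp only [Complex.ofReal_re] at this
    exact this
  have h4 := sum_le_hasSum S (fun n _ => by
    have := LV_wg_nonneg M n
    positivity) hre
  refine h4.trans ((Complex.re_le_norm _).trans ?_)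
  refine (norm_sum_le _ _).trans (Finset.sum_le_sum fun ρ _ => ?_)
  refine (norm_sum_le _ _).trans (Finset.sum_le_sum fun ρ' _ => ?_)
  rw [norm_mul, norm_mul, RCLike.norm_conj]
  have := mul_le_mul (hc1 ρ) (hc1 ρ') (norm_nonneg _) zero_le_one
  rw [mul_one] at this
  calc ‖c ρ‖ * ‖c ρ'‖ * ‖SS M (ρ.re + ρ'.re - 2 * σ) (ρ.im - ρ'.im)‖
      ≤ 1 * ‖SS M (ρ.re + ρ'.re - 2 * σ) (ρ.im - ρ'.im)‖ :=
        mul_le_mul_of_nonneg_right this (norm_nonneg _)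
    _ = _ := one_mul _

end Pool.Agent.helper78.ED
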