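import Pool.Agent.helper78.ED.Defs

/-!
# Additive energy of the zeros of the Riemann zeta function (project ED, second form): definitions
-/

set_option autoImplicit false

open Complex MeasureTheory

namespace Pool.Agent.helper78.ED

open Pool.Agent.helper84.DM

/-- The modulus of the partial sum of the zeta series of length `K` at `1/2 + i u`. -/
noncomputable def DK (K : ℕ) (u : ℝ) : ℝ :=
  ‖∑ n ∈ Finset.Icc 1 K, (n : ℂ) ^ (-((1 / 2 : ℂ) + u * I))‖

/-- Local average of the partial sum near the height `t`. -/
noncomputable def Dt (K : ℕ) (V t : ℝ) : ℝ :=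
  ∫ v in (-V)..V, DK K (t + v) * Real.exp (-v ^ 2)

end Pool.Agent.helper78.ED
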