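import Pool.Agent.helper78.ED.LV
import Pool.Agent.helper59.DM.DV

/-! # Project ED, module CO: zeros of the first class -/

set_option autoImplicit false

open Complex MeasureTheory

namespace Pool.Agent.helper78.ED

open Pool.Agent.helper84.DM

theorem CO_log {C₁ K ε : ℝ} (hC₁ : 0 < C₁) (hK : 0 < K) (hε : 0 < ε) : ∃ C T₀ : ℝ, 0 < C ∧
    ∀ T : ℝ, T₀ ≤ T → 1 ≤ C₁ * Real.log T ∧ ∀ k : ℕ, (k : ℝ) ≤ K →
      (C₁ * Real.log T) ^ (2 * k) ≤ C * T ^ ε := by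
  set a : ℝ := ε / (2 * K) with ha
  have ha0 : 0 < a := by positivity
  refine ⟨(C₁ / a) ^ (2 * K), max 1 (Real.exp (1 / C₁)), by positivity, fun T hT => ?_⟩
  have hT1 : 1 ≤ T := (le_max_left _ _).trans hT
  have hT0 : 0 < T := by linarith
  have hlog : 1 ≤ C₁ * Real.log T := by
    have h1 : Real.exp (1 / C₁) ≤ T := (le_max_right _ _).trans hT
    have h2 : 1 / C₁ ≤ Real.log T := (Real.le_log_iff_exp_le hT0).2 h1
    calc (1 : ℝ) = C₁ * (1 / C₁) := by field_simp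
      _ ≤ C₁ * Real.log T := mul_le_mul_of_nonneg_left h2 hC₁.le
  refine ⟨hlog, fun k hk => ?_⟩
  have h3 : Real.log T ≤ T ^ a / a := Real.log_le_rpow_div hT0.le ha0
  calc (C₁ * Real.log T) ^ (2 * k) = (C₁ * Real.log T) ^ (((2 * k : ℕ) : ℝ)) := by
        rw [Real.rpow_natCast]
    _ ≤ (C₁ * Real.log T) ^ (2 * K) := by
        apply Real.rpow_le_rpow_of_exponent_le hlog
        push_cast
        linarith
    _ ≤ (C₁ * (T ^ a / a)) ^ (2 * K) := by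
        apply Real.rpow_le_rpow (by linarith)
        · exact mul_le_mul_of_nonneg_left h3 hC₁.le
        · positivity
    _ = (C₁ / a * T ^ a) ^ (2 * K) := by congr 1; ring
    _ = (C₁ / a) ^ (2 * K) * T ^ ε := by
        rw [Real.mul_rpow (by positivity) (by positivity), ← Real.rpow_mul hT0.le]
        congr 2
        rw [ha]; field_simp

theorem CO_G {ε K κ C₁ : ℝ} (hε : 0 < ε) (hK : 1 ≤ K) (hκ : 0 < κ) (hC₁ : 1 ≤ C₁)
    (hWL : ∀ {M : ℝ} {n k : ℕ}, 1 ≤ M → M ≤ n → (n : ℝ) ≤ 2 ^ k * M →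
      Real.exp (-((k : ℝ) ^ 2)) ≤ wg M n) :
    ∃ C : ℝ, 0 < C ∧ ∀ T : ℝ, 1 ≤ T → ∀ (N k : ℕ) (b : ℕ → ℂ) (σ : ℝ), 0 ≤ σ → 1 ≤ N →
      (k : ℝ) ≤ K → (N : ℝ) ^ k ≤ T ^ (6 : ℕ) →
      (∀ n, ‖b n‖ ≤ (C₁ * T ^ κ) ^ k * d n ^ k) →
      ∑ n ∈ Finset.Ioc (N ^ k) ((2 * N) ^ k), ‖b n‖ ^ 2 * (n : ℝ) ^ (-(2 * σ)) /
        wg ((N : ℝ) ^ k) n ≤ C * T ^ (2 * K * κ + ε) * ((N : ℝ) ^ k * ((N : ℝ) ^ k) ^ (-(2 * σ))) := by
  have hK0 : 0 < K := by linarith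
  set θ : ℝ := ε / (12 * K) with hθ
  have hθ0 : 0 < θ := by positivity
  obtain ⟨D₀, hD₀, hD⟩ := divisor_bound θ hθ0
  set D : ℝ := max 1 D₀ with hDdef
  have hD1 : 1 ≤ D := le_max_left _ _
  set A : ℝ := C₁ ^ (2 * K) * (D * ((2 : ℝ) ^ K) ^ θ) ^ (2 * K) * Real.exp (K ^ 2) * 2 ^ K with hA
  have hA0 : 0 < A := by positivity
  refine ⟨A, hA0, fun T hT N k b σ hσ hN hk hM hb => ?_⟩
  have hT0 : 0 < T := by linarith
  set M : ℝ := (N : ℝ) ^ k with hMdef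
  have hN1 : (1 : ℝ) ≤ N := by exact_mod_cast hN
  have hM1 : 1 ≤ M := one_le_pow₀ hN1
  have hM0 : 0 < M := by linarith
  have h2k : (2 : ℝ) ^ k ≤ 2 ^ K := by
    rw [← Real.rpow_natCast]
    exact Real.rpow_le_rpow_of_exponent_le (by norm_num) hk
  have hC1T : 1 ≤ C₁ * T ^ κ := by
    have : 1 ≤ T ^ κ := Real.one_le_rpow hT hκ.le
    calc (1 : ℝ) = 1 * 1 := by norm_num
      _ ≤ C₁ * T ^ κ := mul_le_mul hC₁ this zero_le_one (by linarith)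
  -- bound of one term
  have hterm : ∀ n ∈ Finset.Ioc (N ^ k) ((2 * N) ^ k), ‖b n‖ ^ 2 * (n : ℝ) ^ (-(2 * σ)) / wg M n
      ≤ C₁ ^ (2 * K) * (D * ((2 : ℝ) ^ K) ^ θ) ^ (2 * K) * Real.exp (K ^ 2)
        * T ^ (2 * K * κ + ε) * M ^ (-(2 * σ)) := by
    intro n hn
    rw [Finset.mem_Ioc] at hn
    have hn1 : 1 ≤ n := by
      have : 1 ≤ N ^ k := Nat.one_le_pow _ _ hN
      omega
    have hnr1 : (1 : ℝ) ≤ n := by exact_mod_cast hn1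
    have hn0 : (0 : ℝ) < n := by linarith
    have hMn : M ≤ n := by
      rw [hMdef]; exact_mod_cast hn.1.le
    have hn2 : (n : ℝ) ≤ 2 ^ k * M := by
      have : (n : ℝ) ≤ ((2 * N) ^ k : ℕ) := by exact_mod_cast hn.2
      rw [hMdef, ← mul_pow]
      exact_mod_cast this
    have hw : Real.exp (-(K ^ 2)) ≤ wg M n := by
      refine le_trans ?_ (hWL hM1 hMn hn2)
      apply Real.exp_le_exp.2
      have : (k : ℝ) ^ 2 ≤ K ^ 2 := pow_le_pow_left₀ (Nat.cast_nonneg _) hk 2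
      linarith
    have hw0 : 0 < wg M n := LV_wg_pos hn1
    have hnT : (n : ℝ) ≤ 2 ^ K * T ^ (6 : ℕ) := by
      calc (n : ℝ) ≤ 2 ^ k * M := hn2
        _ ≤ 2 ^ K * T ^ (6 : ℕ) := mul_le_mul h2k hM hM0.le (by positivity)
    -- the divisor function
    have hd0 : 0 ≤ d n := Nat.cast_nonneg _
    have hdn : d n ≤ D * ((2 : ℝ) ^ K * T ^ (6 : ℕ)) ^ θ := by
      calc d n ≤ D₀ * (n : ℝ) ^ θ := hD n hn1
        _ ≤ D * (n : ℝ) ^ θ := mul_le_mul_of_nonneg_right (le_max_right _ _) (by positivity)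
        _ ≤ D * ((2 : ℝ) ^ K * T ^ (6 : ℕ)) ^ θ :=
            mul_le_mul_of_nonneg_left (Real.rpow_le_rpow hn0.le hnT hθ0.le) (by linarith)
    have hbase : 1 ≤ D * ((2 : ℝ) ^ K * T ^ (6 : ℕ)) ^ θ := by
      have h1 : (1 : ℝ) ≤ (2 : ℝ) ^ K * T ^ (6 : ℕ) := by
        have e1 : (1 : ℝ) ≤ (2 : ℝ) ^ K := Real.one_le_rpow (by norm_num) hK0.le
        have e2 : (1 : ℝ) ≤ T ^ (6 : ℕ) := one_le_pow₀ hT
        calc (1 : ℝ) = 1 * 1 := by norm_num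
          _ ≤ _ := mul_le_mul e1 e2 zero_le_one (by linarith)
      have h2 : 1 ≤ ((2 : ℝ) ^ K * T ^ (6 : ℕ)) ^ θ := Real.one_le_rpow h1 hθ0.le
      calc (1 : ℝ) = 1 * 1 := by norm_num
        _ ≤ _ := mul_le_mul hD1 h2 zero_le_one (by linarith)
    have hpow : ∀ x : ℝ, 1 ≤ x → x ^ (2 * k) ≤ x ^ (2 * K) := by
      intro x hx
      rw [← Real.rpow_natCast]
      apply Real.rpow_le_rpow_of_exponent_le hx
      push_cast
      linarith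
    have hb2 : ‖b n‖ ^ 2 ≤ C₁ ^ (2 * K) * (D * ((2 : ℝ) ^ K) ^ θ) ^ (2 * K) *
        T ^ (2 * K * κ + ε) := by
      calc ‖b n‖ ^ 2 ≤ ((C₁ * T ^ κ) ^ k * d n ^ k) ^ 2 :=
            pow_le_pow_left₀ (norm_nonneg _) (hb n) 2
        _ = (C₁ * T ^ κ) ^ (2 * k) * d n ^ (2 * k) := by
            rw [mul_pow, ← pow_mul, ← pow_mul, mul_comm k 2]
        _ ≤ (C₁ * T ^ κ) ^ (2 * K) * (D * ((2 : ℝ) ^ K * T ^ (6 : ℕ)) ^ θ) ^ (2 * K) := by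
            refine mul_le_mul (hpow _ hC1T) ?_ (by positivity) (by positivity)
            exact (pow_le_pow_left₀ hd0 hdn _).trans (hpow _ hbase)
        _ = _ := by
            have e0 : D * ((2 : ℝ) ^ K * T ^ (6 : ℕ)) ^ θ = (D * ((2 : ℝ) ^ K) ^ θ) * T ^ (6 * θ) := by
              rw [Real.mul_rpow (by positivity) (by positivity), ← Real.rpow_natCast T 6,
                ← Real.rpow_mul hT0.le]
              push_cast
              ring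
            rw [e0, Real.mul_rpow (by linarith) (by positivity),
              Real.mul_rpow (by positivity) (by positivity), ← Real.rpow_mul hT0.le,
              ← Real.rpow_mul hT0.le]
            have e1 : T ^ (2 * K * κ + ε) = T ^ (κ * (2 * K)) * T ^ (6 * θ * (2 * K)) := by
              rw [← Real.rpow_add hT0]
              congr 1
              rw [hθ]
              field_simp
              ring
            rw [e1]
            ring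
    have hns : (n : ℝ) ^ (-(2 * σ)) ≤ M ^ (-(2 * σ)) :=
      Real.rpow_le_rpow_of_nonpos hM0 hMn (by linarith)
    have hinv : 1 / wg M n ≤ Real.exp (K ^ 2) := by
      rw [div_le_iff₀ hw0]
      calc (1 : ℝ) = Real.exp (K ^ 2) * Real.exp (-(K ^ 2)) := by
            rw [← Real.exp_add]; simp
        _ ≤ Real.exp (K ^ 2) * wg M n := mul_le_mul_of_nonneg_left hw (Real.exp_pos _).le
    calc ‖b n‖ ^ 2 * (n : ℝ) ^ (-(2 * σ)) / wg M n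
        = ‖b n‖ ^ 2 * (n : ℝ) ^ (-(2 * σ)) * (1 / wg M n) := by ring
      _ ≤ (C₁ ^ (2 * K) * (D * ((2 : ℝ) ^ K) ^ θ) ^ (2 * K) * T ^ (2 * K * κ + ε))
          * M ^ (-(2 * σ)) * Real.exp (K ^ 2) := by
          refine mul_le_mul (mul_le_mul hb2 hns (by positivity) (by positivity)) hinv
            (by positivity) (by positivity)
      _ = _ := by ring
  refine (Finset.sum_le_sum hterm).trans ?_
  rw [Finset.sum_const, nsmul_eq_mul, Nat.card_Ioc]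
  have hcard : (((2 * N) ^ k - N ^ k : ℕ) : ℝ) ≤ 2 ^ K * M := by
    calc (((2 * N) ^ k - N ^ k : ℕ) : ℝ) ≤ (((2 * N) ^ k : ℕ) : ℝ) := by
          exact_mod_cast Nat.sub_le _ _
      _ = 2 ^ k * M := by rw [hMdef, ← mul_pow]; push_cast; ring
      _ ≤ 2 ^ K * M := mul_le_mul_of_nonneg_right h2k hM0.le
  calc (((2 * N) ^ k - N ^ k : ℕ) : ℝ) * (C₁ ^ (2 * K) * (D * ((2 : ℝ) ^ K) ^ θ) ^ (2 * K)
        * Real.exp (K ^ 2) * T ^ (2 * K * κ + ε) * M ^ (-(2 * σ)))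
      ≤ (2 ^ K * M) * (C₁ ^ (2 * K) * (D * ((2 : ℝ) ^ K) ^ θ) ^ (2 * K)
        * Real.exp (K ^ 2) * T ^ (2 * K * κ + ε) * M ^ (-(2 * σ))) :=
        mul_le_mul_of_nonneg_right hcard (by positivity)
    _ = A * T ^ (2 * K * κ + ε) * (M * M ^ (-(2 * σ))) := by rw [hA]; ring

/-- the final algebra -/
theorem CO_alg {R A M X σ Q : ℝ} (hR : 0 ≤ R) (hM : 1 ≤ M) (hX : 1 ≤ X)
    (hMX : M ≤ X) (hXM : X ^ (1 / 2 : ℝ) ≤ M) (hσ : 3 / 4 ≤ σ) (hσ1 : σ ≤ 1) (hQ : 0 ≤ Q)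
    (h : R ^ 2 ≤ A * (M * M ^ (-(2 * σ))) * (R * (M + M ^ (1 / 2 : ℝ) * Q ^ (1 / 4 : ℝ)))) :
    R ^ 4 ≤ 8 * A ^ 4 * (X ^ (8 * (1 - σ)) + X ^ (3 - 4 * σ) * Q) := by
  have hM0 : 0 < M := by linarith
  have hX0 : 0 < X := by linarith
  rcases hR.eq_or_lt with h0 | h0
  · rw [← h0]
    have : 0 ≤ 8 * A ^ 4 * (X ^ (8 * (1 - σ)) + X ^ (3 - 4 * σ) * Q) := by
      have : 0 ≤ A ^ 4 := by positivity
      positivity
    simpa using this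
  have h1 : R ≤ A * (M ^ (2 - 2 * σ) + M ^ (3 / 2 - 2 * σ) * Q ^ (1 / 4 : ℝ)) := by
    have e : A * (M * M ^ (-(2 * σ))) * (R * (M + M ^ (1 / 2 : ℝ) * Q ^ (1 / 4 : ℝ)))
        = (A * (M ^ (2 - 2 * σ) + M ^ (3 / 2 - 2 * σ) * Q ^ (1 / 4 : ℝ))) * R := by
      have e1 : M ^ (2 - 2 * σ) = M * M ^ (-(2 * σ)) * M := by
        rw [show 2 - 2 * σ = 1 + -(2 * σ) + 1 by ring, Real.rpow_add hM0, Real.rpow_add hM0,
          Real.rpow_one]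
      have e2 : M ^ (3 / 2 - 2 * σ) = M * M ^ (-(2 * σ)) * M ^ (1 / 2 : ℝ) := by
        rw [show 3 / 2 - 2 * σ = 1 + -(2 * σ) + 1 / 2 by ring, Real.rpow_add hM0,
          Real.rpow_add hM0, Real.rpow_one]
      rw [e1, e2]; ring
    rw [e, sq] at h
    exact le_of_mul_le_mul_right h h0
  set a := M ^ (2 - 2 * σ) with ha
  set b := M ^ (3 / 2 - 2 * σ) * Q ^ (1 / 4 : ℝ) with hb
  have ha0 : 0 ≤ a := by positivity
  have hb0 : 0 ≤ b := by positivity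
  have h2 : R ^ 4 ≤ (A * (a + b)) ^ 4 := pow_le_pow_left₀ hR h1 4
  have h3 : (a + b) ^ 4 ≤ 8 * (a ^ 4 + b ^ 4) := by
    have := add_pow_le ha0 hb0 4
    norm_num at this
    exact this
  have ha4 : a ^ 4 ≤ X ^ (8 * (1 - σ)) := by
    have e : a ^ 4 = M ^ (8 * (1 - σ)) := by
      rw [ha, ← Real.rpow_natCast, ← Real.rpow_mul hM0.le]
      congr 1; push_cast; ring
    rw [e]
    exact Real.rpow_le_rpow hM0.le hMX (by linarith)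
  have hb4 : b ^ 4 ≤ X ^ (3 - 4 * σ) * Q := by
    have e : b ^ 4 = M ^ (6 - 8 * σ) * Q := by
      rw [hb, mul_pow, ← Real.rpow_natCast, ← Real.rpow_mul hM0.le, ← Real.rpow_natCast (Q ^ _),
        ← Real.rpow_mul hQ]
      norm_num
      left
      congr 1; ring
    rw [e]
    refine mul_le_mul_of_nonneg_right ?_ hQ
    have e2 : X ^ (3 - 4 * σ) = (X ^ (1 / 2 : ℝ)) ^ (6 - 8 * σ) := by
      rw [← Real.rpow_mul hX0.le]
      congr 1; ring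
    rw [e2]
    exact Real.rpow_le_rpow_of_nonpos (by positivity) hXM (by linarith)
  calc R ^ 4 ≤ (A * (a + b)) ^ 4 := h2
    _ = A ^ 4 * (a + b) ^ 4 := by ring
    _ ≤ A ^ 4 * (8 * (a ^ 4 + b ^ 4)) := mul_le_mul_of_nonneg_left h3 (by positivity)
    _ ≤ A ^ 4 * (8 * (X ^ (8 * (1 - σ)) + X ^ (3 - 4 * σ) * Q)) := by
        refine mul_le_mul_of_nonneg_left ?_ (by positivity)
        linarith
    _ = _ := by ring

theorem class_one_of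
    (hws : ∀ M : ℝ, 1 ≤ M → Summable (wg M))
    (hWL : ∀ {M : ℝ} {n k : ℕ}, 1 ≤ M → M ≤ n → (n : ℝ) ≤ 2 ^ k * M →
      Real.exp (-((k : ℝ) ^ 2)) ≤ wg M n)
    (hPP : ∀ (N : ℕ), 1 ≤ N → ∀ (c : ℕ → ℂ) (B : ℝ), 0 ≤ B →
      (∀ n ∈ Finset.Ioc N (2 * N), ‖c n‖ ≤ B) → ∀ k : ℕ, 1 ≤ k →
      ∃ b : ℕ → ℂ, (∀ n, ‖b n‖ ≤ B ^ k * d n ^ k) ∧
        ∀ s : ℂ, (∑ n ∈ Finset.Ioc N (2 * N), c n * (n : ℂ) ^ (-s)) ^ k
          = ∑ n ∈ Finset.Ioc (N ^ k) ((2 * N) ^ k), b n * (n : ℂ) ^ (-s))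
    (hCP : ∀ δ : ℝ, 0 < δ → δ ≤ 1 / 4 → ∃ T₀ : ℝ, ∀ T : ℝ, T₀ ≤ T →
      ∀ X : ℝ, T ≤ X → X ≤ T ^ (6 : ℕ) →
      ∀ N : ℕ, T ^ δ / 2 ≤ (N : ℝ) → (N : ℝ) ≤ T ^ (1 / 2 + δ) → ∃ k : ℕ, 1 ≤ k ∧
        (k : ℝ) ≤ 7 / δ ∧ X ^ (1 / 2 : ℝ) ≤ (N : ℝ) ^ k ∧ (N : ℝ) ^ k ≤ X)
    (hPS : ∀ η ε : ℝ, 0 < η → η ≤ 1 / 8 → 0 < ε → ∃ C T₀ : ℝ, 0 < C ∧
      ∀ T : ℝ, T₀ ≤ T → ∀ σ M : ℝ, 1 / 2 ≤ σ → 1 ≤ M → M ≤ T ^ (6 : ℕ) →
        ∀ Z : Finset ℂ, Zer σ T Z →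
          ∑ ρ ∈ Z, ∑ ρ' ∈ Z, ‖SS M (ρ.re + ρ'.re - 2 * σ) (ρ.im - ρ'.im)‖
            ≤ C * T ^ ε * (Z.card : ℝ) *
              (M + M ^ (1 / 2 + η) * (T * (energy Z : ℝ)) ^ (1 / 4 : ℝ)))
    (ε δ : ℝ) (hε : 0 < ε) (hδ : 0 < δ) (hδ1 : δ ≤ 1 / 4) : ∃ κ : ℝ, 0 < κ ∧
    ∀ C₁ : ℝ, 0 < C₁ → ∃ C T₀ : ℝ, 0 < C ∧ ∀ T : ℝ, T₀ ≤ T → ∀ σ : ℝ, 3 / 4 ≤ σ → σ ≤ 1 →
      ∀ X : ℝ, T ≤ X → X ≤ T ^ (6 : ℕ) →
      ∀ c : ℕ → ℂ, (∀ n : ℕ, 1 ≤ n → (n : ℝ) ≤ T → ‖c n‖ ≤ C₁ * T ^ κ) →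
      ∀ N : ℕ, T ^ δ / 2 ≤ (N : ℝ) → (N : ℝ) ≤ T ^ (1 / 2 + δ) →
      ∀ Z : Finset ℂ, Zer σ T Z →
        (∀ ρ ∈ Z, 1 / (C₁ * Real.log T) ≤
          ‖∑ n ∈ Finset.Ioc N (2 * N), c n * (n : ℂ) ^ (-ρ)‖) →
        (Z.card : ℝ) ^ 4 ≤ C * T ^ ε *
          (X ^ (8 * (1 - σ)) + X ^ (3 - 4 * σ) * (T * (energy Z : ℝ))) := by
  set K : ℝ := 7 / δ with hK
  have hK1 : 1 ≤ K := by
    rw [hK, le_div_iff₀ hδ]; linarith
  have hK0 : 0 < K := by linarith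
  set κ : ℝ := ε / (64 * K) with hκ
  have hκ0 : 0 < κ := by positivity
  set η : ℝ := min (1 / 8) (ε / 48) with hη
  have hη0 : 0 < η := lt_min (by norm_num) (by positivity)
  have hη8 : η ≤ 1 / 8 := min_le_left _ _
  have hηε : η ≤ ε / 48 := min_le_right _ _
  have hε1 : 0 < ε / 32 := by positivity
  refine ⟨κ, hκ0, fun C₁ hC₁ => ?_⟩
  have hC₁' : 1 ≤ max 1 C₁ := le_max_left _ _
  obtain ⟨CL, TL, hCL, hL⟩ := CO_log hC₁ hK0 hε1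
  obtain ⟨CG, hCG, hG⟩ := CO_G hε1 hK1 hκ0 hC₁' hWL
  obtain ⟨CP, TP, hCP0, hP⟩ := hPS η (ε / 32) hη0 hη8 hε1
  obtain ⟨TC, hC⟩ := hCP δ hδ hδ1
  set D : ℝ := CL * CG * CP with hD
  have hD0 : 0 < D := by positivity
  refine ⟨8 * D ^ 4, max (max TL TP) (max TC 16), by positivity, ?_⟩
  intro T hT σ hσ hσ1 X hTX hXT c hc N hN1 hN2 Z hZ hbig
  have hTL : TL ≤ T := (le_max_left _ _).trans ((le_max_left _ _).trans hT)
  have hTP : TP ≤ T := (le_max_right _ _).trans ((le_max_left _ _).trans hT)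
  have hTC : TC ≤ T := (le_max_left _ _).trans ((le_max_right _ _).trans hT)
  have hT16 : 16 ≤ T := (le_max_right _ _).trans ((le_max_right _ _).trans hT)
  have hT1 : 1 ≤ T := by linarith
  have hT0 : 0 < T := by linarith
  have hX1 : 1 ≤ X := by linarith
  have hNpos : 1 ≤ N := by
    have : (0 : ℝ) < N := lt_of_lt_of_le (by positivity) hN1
    exact_mod_cast this
  obtain ⟨k, hk1, hkK, hkM, hkX⟩ := hC T hTC X hTX hXT N hN1 hN2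
  -- the coefficients
  have h2N : (2 * N : ℝ) ≤ T := by
    have e1 : T ^ (1 / 2 + δ) ≤ T ^ (3 / 4 : ℝ) :=
      Real.rpow_le_rpow_of_exponent_le hT1 (by linarith)
    have e2 : (2 : ℝ) ≤ T ^ (1 / 4 : ℝ) := by
      have : (16 : ℝ) ^ (1 / 4 : ℝ) ≤ T ^ (1 / 4 : ℝ) :=
        Real.rpow_le_rpow (by norm_num) hT16 (by norm_num)
      have e3 : (16 : ℝ) ^ (1 / 4 : ℝ) = 2 := by
        rw [show (16 : ℝ) = 2 ^ (4 : ℝ) by norm_num, ← Real.rpow_mul (by norm_num)]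
        norm_num
      linarith
    calc (2 * N : ℝ) ≤ T ^ (1 / 4 : ℝ) * T ^ (3 / 4 : ℝ) :=
          mul_le_mul e2 (hN2.trans e1) (Nat.cast_nonneg _) (by positivity)
      _ = T := by
          rw [← Real.rpow_add hT0]; norm_num
  have hcB : ∀ n ∈ Finset.Ioc N (2 * N), ‖c n‖ ≤ max 1 C₁ * T ^ κ := by
    intro n hn
    rw [Finset.mem_Ioc] at hn
    have hnT : (n : ℝ) ≤ T := by
      have : (n : ℝ) ≤ 2 * N := by exact_mod_cast hn.2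
      linarith
    refine (hc n (by omega) hnT).trans ?_
    exact mul_le_mul_of_nonneg_right (le_max_right _ _) (by positivity)
  obtain ⟨b, hb, hbs⟩ := hPP N hNpos c (max 1 C₁ * T ^ κ) (by positivity) hcB k hk1
  set M : ℝ := (N : ℝ) ^ k with hM
  have hNr : (1 : ℝ) ≤ N := by exact_mod_cast hNpos
  have hM1 : 1 ≤ M := one_le_pow₀ hNr
  have hM0 : 0 < M := by linarith
  obtain ⟨hl1, hl2⟩ := hL T hTL
  set lam : ℝ := C₁ * Real.log T with hlam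
  have hlam0 : 0 < lam := by linarith
  -- large values
  have hLV := large_values_of hws Z (Finset.Ioc (N ^ k) ((2 * N) ^ k)) (by simp) b σ M
    ((1 / lam) ^ k) hM1 (by positivity) (fun ρ hρ => (hZ ρ hρ).2.1) (fun ρ hρ => by
      rw [← hbs ρ, norm_pow]
      exact pow_le_pow_left₀ (by positivity) (hbig ρ hρ) k)
  set G : ℝ := ∑ n ∈ Finset.Ioc (N ^ k) ((2 * N) ^ k), ‖b n‖ ^ 2 * (n : ℝ) ^ (-(2 * σ)) /
        wg M n with hGdef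
  set P : ℝ := ∑ ρ ∈ Z, ∑ ρ' ∈ Z, ‖SS M (ρ.re + ρ'.re - 2 * σ) (ρ.im - ρ'.im)‖ with hPdef
  set E : ℝ := T * (energy Z : ℝ) with hE
  set R : ℝ := (Z.card : ℝ) with hR
  have hR0 : 0 ≤ R := Nat.cast_nonneg _
  have hE0 : 0 ≤ E := by positivity
  have hG0 : 0 ≤ G := Finset.sum_nonneg fun n _ => div_nonneg (by positivity) (LV_wg_nonneg M n)
  have hP0 : 0 ≤ P := Finset.sum_nonneg fun _ _ => Finset.sum_nonneg fun _ _ => norm_nonneg _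
  have hG1 : G ≤ CG * T ^ (2 * K * κ + ε / 32) * (M * M ^ (-(2 * σ))) :=
    hG T hT1 N k b σ (by linarith) hNpos hkK (hkX.trans hXT) hb
  have hP1 : P ≤ CP * T ^ (ε / 32) * R * (M + M ^ (1 / 2 + η) * E ^ (1 / 4 : ℝ)) :=
    hP T hTP σ M (by linarith) hM1 (hkX.trans hXT) Z hZ
  have hMη : M ^ (1 / 2 + η) ≤ T ^ (6 * η) * M ^ (1 / 2 : ℝ) := by
    rw [Real.rpow_add hM0, mul_comm]
    refine mul_le_mul_of_nonneg_right ?_ (by positivity)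
    calc M ^ η ≤ (T ^ (6 : ℕ)) ^ η := Real.rpow_le_rpow hM0.le (hkX.trans hXT) hη0.le
      _ = T ^ (6 * η) := by
          rw [← Real.rpow_natCast, ← Real.rpow_mul hT0.le]; norm_num
  have hTη : 1 ≤ T ^ (6 * η) := Real.one_le_rpow hT1 (by positivity)
  have hP2 : P ≤ CP * T ^ (ε / 32) * T ^ (6 * η) *
      (R * (M + M ^ (1 / 2 : ℝ) * E ^ (1 / 4 : ℝ))) := by
    refine hP1.trans ?_
    have e : M + M ^ (1 / 2 + η) * E ^ (1 / 4 : ℝ)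
        ≤ T ^ (6 * η) * (M + M ^ (1 / 2 : ℝ) * E ^ (1 / 4 : ℝ)) := by
      have e1 : M ≤ T ^ (6 * η) * M := by
        calc M = 1 * M := (one_mul _).symm
          _ ≤ _ := mul_le_mul_of_nonneg_right hTη hM0.le
      have e2 : M ^ (1 / 2 + η) * E ^ (1 / 4 : ℝ)
          ≤ T ^ (6 * η) * M ^ (1 / 2 : ℝ) * E ^ (1 / 4 : ℝ) :=
        mul_le_mul_of_nonneg_right hMη (by positivity)
      calc _ ≤ T ^ (6 * η) * M + T ^ (6 * η) * M ^ (1 / 2 : ℝ) * E ^ (1 / 4 : ℝ) :=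
            add_le_add e1 e2
        _ = _ := by ring
    calc CP * T ^ (ε / 32) * R * (M + M ^ (1 / 2 + η) * E ^ (1 / 4 : ℝ))
        ≤ CP * T ^ (ε / 32) * R * (T ^ (6 * η) * (M + M ^ (1 / 2 : ℝ) * E ^ (1 / 4 : ℝ))) :=
          mul_le_mul_of_nonneg_left e (by positivity)
      _ = _ := by ring
  set A : ℝ := D * T ^ (3 * (ε / 32) + 2 * K * κ + 6 * η) with hAdef
  have hmain : R ^ 2 ≤ A * (M * M ^ (-(2 * σ))) *
      (R * (M + M ^ (1 / 2 : ℝ) * E ^ (1 / 4 : ℝ))) := by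
    have e1 : R ^ 2 = (R * (1 / lam) ^ k) ^ 2 * lam ^ (2 * k) := by
      have : (1 / lam) ^ k * lam ^ k = 1 := by
        rw [← mul_pow, one_div_mul_cancel hlam0.ne', one_pow]
      calc R ^ 2 = R ^ 2 * ((1 / lam) ^ k * lam ^ k) ^ 2 := by rw [this]; ring
        _ = _ := by rw [mul_comm 2 k, pow_mul]; ring
    rw [e1]
    have hA' : A = CL * T ^ (ε / 32) * (CG * T ^ (2 * K * κ + ε / 32)) *
        (CP * T ^ (ε / 32) * T ^ (6 * η)) := by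
      have e3 : T ^ (3 * (ε / 32) + 2 * K * κ + 6 * η) = T ^ (ε / 32) * T ^ (2 * K * κ + ε / 32)
          * (T ^ (ε / 32) * T ^ (6 * η)) := by
        rw [← Real.rpow_add hT0, ← Real.rpow_add hT0, ← Real.rpow_add hT0]
        congr 1; ring
      rw [hAdef, hD, e3]; ring
    calc (R * (1 / lam) ^ k) ^ 2 * lam ^ (2 * k)
        ≤ (G * P) * (CL * T ^ (ε / 32)) :=
          mul_le_mul hLV (hl2 k hkK) (by positivity) (by positivity)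
      _ ≤ ((CG * T ^ (2 * K * κ + ε / 32) * (M * M ^ (-(2 * σ)))) *
          (CP * T ^ (ε / 32) * T ^ (6 * η) *
            (R * (M + M ^ (1 / 2 : ℝ) * E ^ (1 / 4 : ℝ))))) * (CL * T ^ (ε / 32)) := by
          refine mul_le_mul_of_nonneg_right ?_ (by positivity)
          exact mul_le_mul hG1 hP2 hP0 (by positivity)
      _ = _ := by rw [hA']; ring
  have hfin := CO_alg hR0 hM1 hX1 hkX hkM hσ hσ1 hE0 hmain
  refine hfin.trans ?_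
  refine mul_le_mul_of_nonneg_right ?_ (by positivity)
  rw [hAdef, mul_pow, ← mul_assoc]
  refine mul_le_mul_of_nonneg_left ?_ (by positivity)
  rw [← Real.rpow_natCast, ← Real.rpow_mul hT0.le]
  refine Real.rpow_le_rpow_of_exponent_le hT1 ?_
  have e5 : K * κ = ε / 64 := by rw [hκ]; field_simp
  push_cast
  nlinarith [e5, hηε]

end Pool.Agent.helper78.ED
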