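import Pool.Agent.helper78.ED.CO
import Pool.Agent.helper78.ED.Defs2

/-! # Project ED, module C6: zeros of the first class, sixth moment form -/

set_option autoImplicit false

open Complex MeasureTheory

namespace Pool.Agent.helper78.ED

open Pool.Agent.helper84.DM

/-- the final algebra -/
theorem C6_alg {R A M X σ Q : ℝ} (hR : 0 ≤ R) (hA : 1 ≤ A) (hM : 1 ≤ M) (hX : 1 ≤ X)
    (hMX : M ≤ X) (hXM : X ^ (2 / 3 : ℝ) ≤ M) (hσ : 3 / 4 ≤ σ) (hσ1 : σ ≤ 1) (hQ : 0 ≤ Q)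
    (h : R ^ 2 ≤ A * (M * M ^ (-(2 * σ))) *
      (R * M + M ^ (1 / 2 : ℝ) * R ^ (4 / 3 : ℝ) * Q ^ (1 / 6 : ℝ))) :
    R ^ 4 ≤ 64 * A ^ 6 * (X ^ (8 * (1 - σ)) + X ^ (6 - 8 * σ) * Q) := by
  have hM0 : 0 < M := by linarith
  have hX0 : 0 < X := by linarith
  have hA0 : 0 < A := by linarith
  have hXa : 0 ≤ X ^ (8 * (1 - σ)) := by positivity
  have hXb : 0 ≤ X ^ (6 - 8 * σ) * Q := by positivity
  rcases hR.eq_or_lt with h0 | h0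
  · rw [← h0]
    have : 0 ≤ 64 * A ^ 6 * (X ^ (8 * (1 - σ)) + X ^ (6 - 8 * σ) * Q) := by positivity
    simpa using this
  set P₁ : ℝ := A * M ^ (2 - 2 * σ) * R with hP₁
  set P₂ : ℝ := A * M ^ (3 / 2 - 2 * σ) * R ^ (4 / 3 : ℝ) * Q ^ (1 / 6 : ℝ) with hP₂
  have h1 : R ^ 2 ≤ P₁ + P₂ := by
    have e : A * (M * M ^ (-(2 * σ))) *
        (R * M + M ^ (1 / 2 : ℝ) * R ^ (4 / 3 : ℝ) * Q ^ (1 / 6 : ℝ)) = P₁ + P₂ := by
      have e1 : M ^ (2 - 2 * σ) = M * M ^ (-(2 * σ)) * M := by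
        rw [show 2 - 2 * σ = 1 + -(2 * σ) + 1 by ring, Real.rpow_add hM0, Real.rpow_add hM0,
          Real.rpow_one]
      have e2 : M ^ (3 / 2 - 2 * σ) = M * M ^ (-(2 * σ)) * M ^ (1 / 2 : ℝ) := by
        rw [show 3 / 2 - 2 * σ = 1 + -(2 * σ) + 1 / 2 by ring, Real.rpow_add hM0,
          Real.rpow_add hM0, Real.rpow_one]
      rw [hP₁, hP₂, e1, e2]; ring
    rwa [e] at h
  have hA46 : A ^ 4 ≤ A ^ 6 := pow_le_pow_right₀ hA (by norm_num)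
  rcases le_total P₂ P₁ with hc | hc
  · -- the diagonal dominates
    have h2 : R ≤ 2 * A * M ^ (2 - 2 * σ) := by
      have h3 : R * R ≤ (2 * A * M ^ (2 - 2 * σ)) * R := by
        calc R * R = R ^ 2 := by ring
          _ ≤ P₁ + P₁ := by linarith
          _ = _ := by rw [hP₁]; ring
      exact le_of_mul_le_mul_right h3 h0
    have ha4 : (M ^ (2 - 2 * σ)) ^ 4 ≤ X ^ (8 * (1 - σ)) := by
      have e : (M ^ (2 - 2 * σ)) ^ 4 = M ^ (8 * (1 - σ)) := by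
        rw [← Real.rpow_natCast, ← Real.rpow_mul hM0.le]
        congr 1; push_cast; ring
      rw [e]
      exact Real.rpow_le_rpow hM0.le hMX (by linarith)
    calc R ^ 4 ≤ (2 * A * M ^ (2 - 2 * σ)) ^ 4 := pow_le_pow_left₀ hR h2 4
      _ = 16 * A ^ 4 * (M ^ (2 - 2 * σ)) ^ 4 := by ring
      _ ≤ 16 * A ^ 6 * X ^ (8 * (1 - σ)) :=
          mul_le_mul (by linarith) ha4 (by positivity) (by positivity)
      _ ≤ 64 * A ^ 6 * (X ^ (8 * (1 - σ)) + X ^ (6 - 8 * σ) * Q) :=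
          mul_le_mul (by nlinarith [show 0 < A ^ 6 by positivity]) (by linarith) hXa
            (by positivity)
  · -- the energy dominates
    have h2 : R ^ 2 ≤ 2 * P₂ := by linarith
    have h3 : R ^ 12 ≤ 64 * A ^ 6 * (M ^ (9 - 12 * σ) * Q) * R ^ 8 := by
      have e1 : P₂ ^ 6 = A ^ 6 * (M ^ (9 - 12 * σ) * Q) * R ^ 8 := by
        have f1 : (M ^ (3 / 2 - 2 * σ)) ^ 6 = M ^ (9 - 12 * σ) := by
          rw [← Real.rpow_natCast, ← Real.rpow_mul hM0.le]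
          congr 1; push_cast; ring
        have f2 : (R ^ (4 / 3 : ℝ)) ^ 6 = R ^ 8 := by
          rw [← Real.rpow_natCast, ← Real.rpow_mul hR, ← Real.rpow_natCast R 8]
          congr 1; push_cast; norm_num
        have f3 : (Q ^ (1 / 6 : ℝ)) ^ 6 = Q := by
          rw [← Real.rpow_natCast, ← Real.rpow_mul hQ]
          norm_num
        rw [hP₂, mul_pow, mul_pow, mul_pow, f1, f2, f3]; ring
      calc R ^ 12 = (R ^ 2) ^ 6 := by ring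
        _ ≤ (2 * P₂) ^ 6 := pow_le_pow_left₀ (by positivity) h2 6
        _ = 64 * P₂ ^ 6 := by ring
        _ = _ := by rw [e1]; ring
    have h4 : R ^ 4 ≤ 64 * A ^ 6 * (M ^ (9 - 12 * σ) * Q) := by
      have h5 : R ^ 4 * R ^ 8 ≤ 64 * A ^ 6 * (M ^ (9 - 12 * σ) * Q) * R ^ 8 := by
        calc R ^ 4 * R ^ 8 = R ^ 12 := by ring
          _ ≤ _ := h3
      exact le_of_mul_le_mul_right h5 (by positivity)
    have h6 : M ^ (9 - 12 * σ) ≤ X ^ (6 - 8 * σ) := by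
      have e2 : X ^ (6 - 8 * σ) = (X ^ (2 / 3 : ℝ)) ^ (9 - 12 * σ) := by
        rw [← Real.rpow_mul hX0.le]
        congr 1; ring
      rw [e2]
      exact Real.rpow_le_rpow_of_nonpos (by positivity) hXM (by linarith)
    calc R ^ 4 ≤ 64 * A ^ 6 * (M ^ (9 - 12 * σ) * Q) := h4
      _ ≤ 64 * A ^ 6 * (X ^ (8 * (1 - σ)) + X ^ (6 - 8 * σ) * Q) := by
          refine mul_le_mul_of_nonneg_left ?_ (by positivity)
          have := mul_le_mul_of_nonneg_right h6 hQ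
          linarith

theorem class_one6_of
    (hws : ∀ M : ℝ, 1 ≤ M → Summable (wg M))
    (hWL : ∀ {M : ℝ} {n k : ℕ}, 1 ≤ M → M ≤ n → (n : ℝ) ≤ 2 ^ k * M →
      Real.exp (-((k : ℝ) ^ 2)) ≤ wg M n)
    (hPP : ∀ (N : ℕ), 1 ≤ N → ∀ (c : ℕ → ℂ) (B : ℝ), 0 ≤ B →
      (∀ n ∈ Finset.Ioc N (2 * N), ‖c n‖ ≤ B) → ∀ k : ℕ, 1 ≤ k →
      ∃ b : ℕ → ℂ, (∀ n, ‖b n‖ ≤ B ^ k * d n ^ k) ∧
        ∀ s : ℂ, (∑ n ∈ Finset.Ioc N (2 * N), c n * (n : ℂ) ^ (-s)) ^ k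
          = ∑ n ∈ Finset.Ioc (N ^ k) ((2 * N) ^ k), b n * (n : ℂ) ^ (-s))
    (hCP : ∀ δ : ℝ, 0 < δ → δ ≤ 1 / 4 → ∃ T₀ : ℝ, ∀ T : ℝ, T₀ ≤ T →
      ∀ X : ℝ, T ^ (1 + 2 * δ) ≤ X → X ≤ T ^ (6 : ℕ) →
      ∀ N : ℕ, T ^ δ / 2 ≤ (N : ℝ) → (N : ℝ) ≤ T ^ (1 / 2 + δ) → ∃ k : ℕ, 1 ≤ k ∧
        (k : ℝ) ≤ 7 / δ ∧ X ^ (2 / 3 : ℝ) ≤ (N : ℝ) ^ k ∧ (N : ℝ) ^ k ≤ X)
    (hPS : ∀ ε : ℝ, 0 < ε → ∃ C T₀ : ℝ, 0 < C ∧
      ∀ T : ℝ, T₀ ≤ T → ∀ σ M : ℝ, 1 / 2 ≤ σ → T ^ (2 / 3 : ℝ) ≤ M → M ≤ T ^ (6 : ℕ) →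
        ∀ Z : Finset ℂ, Zer σ T Z →
          ∑ ρ ∈ Z, ∑ ρ' ∈ Z, ‖SS M (ρ.re + ρ'.re - 2 * σ) (ρ.im - ρ'.im)‖
            ≤ C * T ^ ε * ((Z.card : ℝ) * M +
              M ^ (1 / 2 : ℝ) * (Z.card : ℝ) ^ (4 / 3 : ℝ) *
                (T * (energy Z : ℝ)) ^ (1 / 6 : ℝ)))
    (ε δ : ℝ) (hε : 0 < ε) (hδ : 0 < δ) (hδ1 : δ ≤ 1 / 4) : ∃ κ : ℝ, 0 < κ ∧
    ∀ C₁ : ℝ, 0 < C₁ → ∃ C T₀ : ℝ, 0 < C ∧ ∀ T : ℝ, T₀ ≤ T → ∀ σ : ℝ, 3 / 4 ≤ σ → σ ≤ 1 →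
      ∀ X : ℝ, T ^ (1 + 2 * δ) ≤ X → X ≤ T ^ (6 : ℕ) →
      ∀ c : ℕ → ℂ, (∀ n : ℕ, 1 ≤ n → (n : ℝ) ≤ T → ‖c n‖ ≤ C₁ * T ^ κ) →
      ∀ N : ℕ, T ^ δ / 2 ≤ (N : ℝ) → (N : ℝ) ≤ T ^ (1 / 2 + δ) →
      ∀ Z : Finset ℂ, Zer σ T Z →
        (∀ ρ ∈ Z, 1 / (C₁ * Real.log T) ≤
          ‖∑ n ∈ Finset.Ioc N (2 * N), c n * (n : ℂ) ^ (-ρ)‖) →
        (Z.card : ℝ) ^ 4 ≤ C * T ^ ε *
          (X ^ (8 * (1 - σ)) + X ^ (6 - 8 * σ) * (T * (energy Z : ℝ))) := by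
  set K : ℝ := 7 / δ with hK
  have hK1 : 1 ≤ K := by
    rw [hK, le_div_iff₀ hδ]; linarith
  have hK0 : 0 < K := by linarith
  set κ : ℝ := ε / (64 * K) with hκ
  have hκ0 : 0 < κ := by positivity
  have hε1 : 0 < ε / 32 := by positivity
  refine ⟨κ, hκ0, fun C₁ hC₁ => ?_⟩
  have hC₁' : 1 ≤ max 1 C₁ := le_max_left _ _
  obtain ⟨CL, TL, hCL, hL⟩ := CO_log hC₁ hK0 hε1
  obtain ⟨CG, hCG, hG⟩ := CO_G hε1 hK1 hκ0 hC₁' hWL
  obtain ⟨CP, TP, hCP0, hP⟩ := hPS (ε / 32) hε1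
  obtain ⟨TC, hC⟩ := hCP δ hδ hδ1
  set D : ℝ := max 1 (CL * CG * CP) with hD
  have hD1 : 1 ≤ D := le_max_left _ _
  have hD0 : 0 < D := by linarith
  refine ⟨64 * D ^ 6, max (max TL TP) (max TC 16), by positivity, ?_⟩
  intro T hT σ hσ hσ1 X hTX hXT c hc N hN1 hN2 Z hZ hbig
  have hTL : TL ≤ T := (le_max_left _ _).trans ((le_max_left _ _).trans hT)
  have hTP : TP ≤ T := (le_max_right _ _).trans ((le_max_left _ _).trans hT)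
  have hTC : TC ≤ T := (le_max_left _ _).trans ((le_max_right _ _).trans hT)
  have hT16 : 16 ≤ T := (le_max_right _ _).trans ((le_max_right _ _).trans hT)
  have hT1 : 1 ≤ T := by linarith
  have hT0 : 0 < T := by linarith
  have hTX' : T ≤ X := by
    refine le_trans ?_ hTX
    calc T = T ^ (1 : ℝ) := (Real.rpow_one T).symm
      _ ≤ T ^ (1 + 2 * δ) := Real.rpow_le_rpow_of_exponent_le hT1 (by linarith)
  have hX1 : 1 ≤ X := by linarith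
  have hNpos : 1 ≤ N := by
    have : (0 : ℝ) < N := lt_of_lt_of_le (by positivity) hN1
    exact_mod_cast this
  obtain ⟨k, hk1, hkK, hkM, hkX⟩ := hC T hTC X hTX hXT N hN1 hN2
  -- the coefficients
  have h2N : (2 * N : ℝ) ≤ T := by
    have e1 : T ^ (1 / 2 + δ) ≤ T ^ (3 / 4 : ℝ) :=
      Real.rpow_le_rpow_of_exponent_le hT1 (by linarith)
    have e2 : (2 : ℝ) ≤ T ^ (1 / 4 : ℝ) := by
      have : (16 : ℝ) ^ (1 / 4 : ℝ) ≤ T ^ (1 / 4 : ℝ) :=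
        Real.rpow_le_rpow (by norm_num) hT16 (by norm_num)
      have e3 : (16 : ℝ) ^ (1 / 4 : ℝ) = 2 := by
        rw [show (16 : ℝ) = 2 ^ (4 : ℝ) by norm_num, ← Real.rpow_mul (by norm_num)]
        norm_num
      linarith
    calc (2 * N : ℝ) ≤ T ^ (1 / 4 : ℝ) * T ^ (3 / 4 : ℝ) :=
          mul_le_mul e2 (hN2.trans e1) (Nat.cast_nonneg _) (by positivity)
      _ = T := by
          rw [← Real.rpow_add hT0]; norm_num
  have hcB : ∀ n ∈ Finset.Ioc N (2 * N), ‖c n‖ ≤ max 1 C₁ * T ^ κ := by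
    intro n hn
    rw [Finset.mem_Ioc] at hn
    have hnT : (n : ℝ) ≤ T := by
      have : (n : ℝ) ≤ 2 * N := by exact_mod_cast hn.2
      linarith
    refine (hc n (by omega) hnT).trans ?_
    exact mul_le_mul_of_nonneg_right (le_max_right _ _) (by positivity)
  obtain ⟨b, hb, hbs⟩ := hPP N hNpos c (max 1 C₁ * T ^ κ) (by positivity) hcB k hk1
  set M : ℝ := (N : ℝ) ^ k with hM
  have hNr : (1 : ℝ) ≤ N := by exact_mod_cast hNpos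
  have hM1 : 1 ≤ M := one_le_pow₀ hNr
  have hM0 : 0 < M := by linarith
  obtain ⟨hl1, hl2⟩ := hL T hTL
  set lam : ℝ := C₁ * Real.log T with hlam
  have hlam0 : 0 < lam := by linarith
  -- large values
  have hLV := large_values_of hws Z (Finset.Ioc (N ^ k) ((2 * N) ^ k)) (by simp) b σ M
    ((1 / lam) ^ k) hM1 (by positivity) (fun ρ hρ => (hZ ρ hρ).2.1) (fun ρ hρ => by
      rw [← hbs ρ, norm_pow]
      exact pow_le_pow_left₀ (by positivity) (hbig ρ hρ) k)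
  set G : ℝ := ∑ n ∈ Finset.Ioc (N ^ k) ((2 * N) ^ k), ‖b n‖ ^ 2 * (n : ℝ) ^ (-(2 * σ)) /
        wg M n with hGdef
  set P : ℝ := ∑ ρ ∈ Z, ∑ ρ' ∈ Z, ‖SS M (ρ.re + ρ'.re - 2 * σ) (ρ.im - ρ'.im)‖ with hPdef
  set E : ℝ := T * (energy Z : ℝ) with hE
  set R : ℝ := (Z.card : ℝ) with hR
  have hR0 : 0 ≤ R := Nat.cast_nonneg _
  have hE0 : 0 ≤ E := by positivity
  have hG0 : 0 ≤ G := Finset.sum_nonneg fun n _ => div_nonneg (by positivity) (LV_wg_nonneg M n)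
  have hP0 : 0 ≤ P := Finset.sum_nonneg fun _ _ => Finset.sum_nonneg fun _ _ => norm_nonneg _
  have hG1 : G ≤ CG * T ^ (2 * K * κ + ε / 32) * (M * M ^ (-(2 * σ))) :=
    hG T hT1 N k b σ (by linarith) hNpos hkK (hkX.trans hXT) hb
  have hTM : T ^ (2 / 3 : ℝ) ≤ M :=
    (Real.rpow_le_rpow hT0.le hTX' (by norm_num)).trans hkM
  have hP1 : P ≤ CP * T ^ (ε / 32) * (R * M + M ^ (1 / 2 : ℝ) * R ^ (4 / 3 : ℝ) *
      E ^ (1 / 6 : ℝ)) :=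
    hP T hTP σ M (by linarith) hTM (hkX.trans hXT) Z hZ
  set A : ℝ := D * T ^ (3 * (ε / 32) + 2 * K * κ) with hAdef
  have hA1 : 1 ≤ A := by
    have : 1 ≤ T ^ (3 * (ε / 32) + 2 * K * κ) := Real.one_le_rpow hT1 (by positivity)
    calc (1 : ℝ) = 1 * 1 := by norm_num
      _ ≤ A := mul_le_mul hD1 this zero_le_one hD0.le
  have hmain : R ^ 2 ≤ A * (M * M ^ (-(2 * σ))) *
      (R * M + M ^ (1 / 2 : ℝ) * R ^ (4 / 3 : ℝ) * E ^ (1 / 6 : ℝ)) := by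
    have e1 : R ^ 2 = (R * (1 / lam) ^ k) ^ 2 * lam ^ (2 * k) := by
      have : (1 / lam) ^ k * lam ^ k = 1 := by
        rw [← mul_pow, one_div_mul_cancel hlam0.ne', one_pow]
      calc R ^ 2 = R ^ 2 * ((1 / lam) ^ k * lam ^ k) ^ 2 := by rw [this]; ring
        _ = _ := by rw [mul_comm 2 k, pow_mul]; ring
    rw [e1]
    have hA' : CL * T ^ (ε / 32) * (CG * T ^ (2 * K * κ + ε / 32)) *
        (CP * T ^ (ε / 32)) ≤ A := by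
      have e3 : T ^ (3 * (ε / 32) + 2 * K * κ) = T ^ (ε / 32) * T ^ (2 * K * κ + ε / 32)
          * T ^ (ε / 32) := by
        rw [← Real.rpow_add hT0, ← Real.rpow_add hT0]
        congr 1; ring
      calc _ = (CL * CG * CP) * T ^ (3 * (ε / 32) + 2 * K * κ) := by rw [e3]; ring
        _ ≤ _ := mul_le_mul_of_nonneg_right (le_max_right _ _) (by positivity)
    set S : ℝ := R * M + M ^ (1 / 2 : ℝ) * R ^ (4 / 3 : ℝ) * E ^ (1 / 6 : ℝ) with hS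
    have hS0 : 0 ≤ S := by positivity
    calc (R * (1 / lam) ^ k) ^ 2 * lam ^ (2 * k)
        ≤ (G * P) * (CL * T ^ (ε / 32)) :=
          mul_le_mul hLV (hl2 k hkK) (by positivity) (by positivity)
      _ ≤ ((CG * T ^ (2 * K * κ + ε / 32) * (M * M ^ (-(2 * σ)))) *
          (CP * T ^ (ε / 32) * S)) * (CL * T ^ (ε / 32)) := by
          refine mul_le_mul_of_nonneg_right ?_ (by positivity)
          exact mul_le_mul hG1 hP1 hP0 (by positivity)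
      _ = (CL * T ^ (ε / 32) * (CG * T ^ (2 * K * κ + ε / 32)) *
        (CP * T ^ (ε / 32))) * ((M * M ^ (-(2 * σ))) * S) := by ring
      _ ≤ A * ((M * M ^ (-(2 * σ))) * S) :=
          mul_le_mul_of_nonneg_right hA' (by positivity)
      _ = _ := by ring
  have hfin := C6_alg hR0 hA1 hM1 hX1 hkX hkM hσ hσ1 hE0 hmain
  refine hfin.trans ?_
  refine mul_le_mul_of_nonneg_right ?_ (by positivity)
  rw [hAdef, mul_pow, ← mul_assoc]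
  refine mul_le_mul_of_nonneg_left ?_ (by positivity)
  rw [← Real.rpow_natCast, ← Real.rpow_mul hT0.le]
  refine Real.rpow_le_rpow_of_exponent_le hT1 ?_
  have e5 : K * κ = ε / 64 := by rw [hκ]; field_simp
  push_cast
  nlinarith [e5]

end Pool.Agent.helper78.ED
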