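import Pool.Agent.helper84.DM.Defs
import Pool.Agent.helper6.LD.Defs

/-!
# Additive energy of the zeros of the Riemann zeta function (project ED, MP_4467b5_nt): definitions
-/

set_option autoImplicit false

open Complex MeasureTheory

namespace Pool.Agent.helper78.ED

open Pool.Agent.helper84.DM

open Classical in
/-- The additive energy of the ordinates of a finite set of complex numbers: the number of
quadruples `((a, b), (c, e))` with `|Im a + Im b - Im c - Im e| ≤ 1`. -/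
noncomputable def energy (Z : Finset ℂ) : ℕ :=
  (((Z ×ˢ Z) ×ˢ (Z ×ˢ Z)).filter
    (fun q => |q.1.1.im + q.1.2.im - q.2.1.im - q.2.2.im| ≤ 1)).card

open Classical in
/-- The number of pairs `(a, b)` with `⌊|Im a - Im b|⌋ = j`. -/
noncomputable def rr (Z : Finset ℂ) (j : ℕ) : ℕ :=
  ((Z ×ˢ Z).filter (fun q => ⌊|q.1.im - q.2.im|⌋₊ = j)).card

open Classical in
/-- The number of points of `Z` with imaginary part in `[t, t + 1]`. -/
noncomputable def loc (Z : Finset ℂ) (t : ℝ) : ℕ :=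
  (Z.filter (fun z => t ≤ z.im ∧ z.im ≤ t + 1)).card

open Classical in
/-- The coefficients of `ζ(s) M(s)`: the sum of the Möbius function over the divisors `≤ X`. -/
noncomputable def am (X : ℝ) (n : ℕ) : ℂ :=
  ∑ k ∈ n.divisors, if (k : ℝ) ≤ X then ((ArithmeticFunction.moebius k : ℤ) : ℂ) else 0

/-- The mollifier of length `X`. -/
noncomputable def moll (X : ℝ) (s : ℂ) : ℂ :=
  ∑ k ∈ Finset.Icc 1 ⌊X⌋₊, ((ArithmeticFunction.moebius k : ℤ) : ℂ) * (k : ℂ) ^ (-s)

/-- The smooth weight. -/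
noncomputable def phi (Y A V : ℝ) (n : ℕ) : ℂ :=
  ∫ v in (-V)..V, (n : ℂ) ^ (-((A : ℂ) + v * I)) * ker Y A v

/-- Local average of the zeta function on the line `Re = 1/2 + η` near the height `t`. -/
noncomputable def Zt (η V t : ℝ) : ℝ :=
  ∫ v in (-V)..V, ‖riemannZeta (((1 / 2 + η : ℝ) : ℂ) + (t + v : ℝ) * I)‖ * Real.exp (-v ^ 2)

/-- The weight `exp (-(log (n/M))^2/4)`, equal to `0` for `n = 0`. -/
noncomputable def wg (M : ℝ) (n : ℕ) : ℝ :=
  if n = 0 then 0 else Real.exp (-(Real.log ((n : ℝ) / M)) ^ 2 / 4)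

/-- The smooth zeta sum. -/
noncomputable def SS (M z τ : ℝ) : ℂ := ∑' n : ℕ, (wg M n : ℂ) * (n : ℂ) ^ (-((z : ℂ) + τ * I))

/-- Zeros of the zeta function with real part at least `σ` and imaginary part in `[T, 2T]`. -/
def Zer (σ T : ℝ) (Z : Finset ℂ) : Prop :=
  ∀ ρ ∈ Z, riemannZeta ρ = 0 ∧ σ ≤ ρ.re ∧ T ≤ ρ.im ∧ ρ.im ≤ 2 * T

end Pool.Agent.helper78.ED
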