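import Pool.Agent.helper97.ED.FN
import Pool.Agent.helper78.ED.Defs2

/-! # Project ED, module F6: the theorem from its dyadic form, sixth moment form -/

set_option autoImplicit false

open Complex MeasureTheory

namespace Pool.Agent.helper78.ED

open Pool.Agent.helper84.DM

/-- The bound for one dyadic block. -/
theorem F6_block
    (hcore : ∀ ε : ℝ, 0 < ε → ∃ C T₀ : ℝ, 0 < C ∧ ∀ T : ℝ, T₀ ≤ T → ∀ σ : ℝ,
      3 / 4 ≤ σ → σ ≤ 1 → ∀ X : ℝ, T ^ (1 + ε) ≤ X → X ≤ T ^ (6 : ℕ) →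
      ∀ Z : Finset ℂ, Zer σ T Z → (Z.card : ℝ) ^ 4 ≤ C * T ^ ε *
          (X ^ (8 * (1 - σ)) + X ^ (6 - 8 * σ) * (T * (energy Z : ℝ))))
    (hge : ∀ Z : Finset ℂ, Z.card ^ 2 ≤ energy Z)
    (hle : ∀ Z : Finset ℂ, energy Z ≤ Z.card ^ 4)
    (hglob : ∃ C : ℝ, 0 < C ∧ ∀ T : ℝ, 2 ≤ T → ∀ Z : Finset ℂ,
      Zer (1 / 2) T Z → (Z.card : ℝ) ≤ C * T * Real.log T)
    (ε : ℝ) (hε : 0 < ε) : ∃ C T₀ : ℝ, 0 < C ∧ 2 ≤ T₀ ∧ ∀ T : ℝ, T₀ ≤ T → ∀ σ : ℝ,
      3 / 4 ≤ σ → σ ≤ 1 → ∀ Z : Finset ℂ, Zer σ T Z →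
        (Z.card : ℝ) ≤ C * T ^ (ε / 4) * (T * (T + (energy Z : ℝ))) ^ (1 - σ) := by
  set e : ℝ := min (ε / 16) 1 with he0
  have he : 0 < e := lt_min (by positivity) one_pos
  have he16 : e ≤ ε / 16 := min_le_left _ _
  have he1 : e ≤ 1 := min_le_right _ _
  obtain ⟨C, T₁, hC, h1⟩ := hcore e he
  obtain ⟨G, hG, h2⟩ := hglob
  -- the logarithm is small
  have hlog : ∀ᶠ T : ℝ in Filter.atTop, G * Real.log T ≤ T ^ (1 / 4 : ℝ) := by
    have h := (isLittleO_log_rpow_atTop (show (0 : ℝ) < 1 / 4 by norm_num))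
    have h3 := h.def (show (0 : ℝ) < 1 / G by positivity)
    filter_upwards [h3, Filter.eventually_ge_atTop (1 : ℝ)] with T h4 h5
    rw [Real.norm_of_nonneg (Real.log_nonneg h5),
      Real.norm_of_nonneg (Real.rpow_nonneg (by linarith) _)] at h4
    rw [one_div, inv_mul_eq_div, le_div_iff₀ hG] at h4
    linarith [mul_comm G (Real.log T)]
  obtain ⟨T₂, h3⟩ := Filter.eventually_atTop.mp hlog
  refine ⟨(2 * C) ^ (1 / 4 : ℝ), max (max T₁ T₂) 2, by positivity, le_max_right _ _, ?_⟩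
  intro T hT σ hs1 hs2 Z hZ
  have hT1 : T₁ ≤ T := le_trans (le_trans (le_max_left _ _) (le_max_left _ _)) hT
  have hT2 : T₂ ≤ T := le_trans (le_trans (le_max_right _ _) (le_max_left _ _)) hT
  have hT3 : 2 ≤ T := le_trans (le_max_right _ _) hT
  have hT0 : 0 < T := by linarith
  rcases Finset.eq_empty_or_nonempty Z with hem | hne
  · subst hem
    simp only [Finset.card_empty, Nat.cast_zero]
    positivity
  have hcard : 1 ≤ Z.card := Finset.card_pos.mpr hne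
  have hE1 : (1 : ℝ) ≤ (energy Z : ℝ) := by
    have := hge Z
    have h4 : 1 ≤ energy Z := le_trans (Nat.one_le_pow _ _ hcard) this
    exact_mod_cast h4
  have hZ2 : Zer (1 / 2) T Z := by
    intro ρ hρ
    obtain ⟨a, b, c, e⟩ := hZ ρ hρ
    exact ⟨a, by linarith, c, e⟩
  have hE5 : (energy Z : ℝ) ≤ T ^ (5 : ℕ) := by
    have h4 : (energy Z : ℝ) ≤ (Z.card : ℝ) ^ 4 := by exact_mod_cast hle Z
    have h5 : (Z.card : ℝ) ≤ T * T ^ (1 / 4 : ℝ) := by
      have h6 := h2 T hT3 Z hZ2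
      have h7 := h3 T hT2
      calc (Z.card : ℝ) ≤ G * T * Real.log T := h6
        _ = T * (G * Real.log T) := by ring
        _ ≤ T * T ^ (1 / 4 : ℝ) := mul_le_mul_of_nonneg_left h7 hT0.le
    calc (energy Z : ℝ) ≤ (Z.card : ℝ) ^ 4 := h4
      _ ≤ (T * T ^ (1 / 4 : ℝ)) ^ 4 := pow_le_pow_left₀ (Nat.cast_nonneg _) h5 4
      _ = T ^ (4 : ℕ) * (T ^ (1 / 4 : ℝ)) ^ (4 : ℕ) := mul_pow _ _ _
      _ = T ^ (4 : ℕ) * T := by
          rw [← Real.rpow_natCast (T ^ (1 / 4 : ℝ)) 4, ← Real.rpow_mul hT0.le]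
          norm_num
      _ = T ^ (5 : ℕ) := by ring
  set E : ℝ := (energy Z : ℝ) with hEdef
  set P : ℝ := T * E with hPdef
  have hP1 : 1 ≤ P := by nlinarith
  have hP0 : 0 < P := by linarith
  have hT1' : 1 ≤ T := by linarith
  have hP6 : P ≤ T ^ (6 : ℕ) := by
    calc P = T * E := rfl
      _ ≤ T * T ^ (5 : ℕ) := mul_le_mul_of_nonneg_left hE5 hT0.le
      _ = T ^ (6 : ℕ) := by ring
  set X₀ : ℝ := P ^ (1 / 2 : ℝ) with hX0def
  have hX0pos : 0 < X₀ := Real.rpow_pos_of_pos hP0 _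
  have hX0P : X₀ ≤ P := by
    calc X₀ ≤ P ^ (1 : ℝ) := Real.rpow_le_rpow_of_exponent_le hP1 (by norm_num)
      _ = P := Real.rpow_one P
  set X : ℝ := max (T ^ (1 + e)) X₀ with hXdef
  have hTX : T ^ (1 + e) ≤ X := le_max_left _ _
  have hX0X : X₀ ≤ X := le_max_right _ _
  have hXpos : 0 < X := lt_of_lt_of_le hX0pos hX0X
  have hX6 : X ≤ T ^ (6 : ℕ) := by
    refine max_le ?_ (le_trans hX0P hP6)
    rw [← Real.rpow_natCast T 6]
    apply Real.rpow_le_rpow_of_exponent_le hT1'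
    push_cast
    linarith
  have hX02 : X₀ ^ 2 = P := by
    rw [hX0def, ← Real.rpow_natCast, ← Real.rpow_mul hP0.le]
    norm_num
  have hPX : P ≤ X ^ 2 := by
    rw [← hX02]
    exact pow_le_pow_left₀ hX0pos.le hX0X 2
  have hmain := h1 T hT1 σ hs1 hs2 X hTX hX6 Z hZ
  have h5 : X ^ (6 - 8 * σ) * P ≤ X ^ (8 * (1 - σ)) := by
    calc X ^ (6 - 8 * σ) * P ≤ X ^ (6 - 8 * σ) * X ^ 2 :=
          mul_le_mul_of_nonneg_left hPX (Real.rpow_nonneg hXpos.le _)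
      _ = X ^ (8 * (1 - σ)) := by
          rw [← Real.rpow_natCast X 2, ← Real.rpow_add hXpos]
          congr 1
          push_cast
          ring
  have h6 : (Z.card : ℝ) ^ 4 ≤ (2 * C) * T ^ e * X ^ (8 * (1 - σ)) := by
    calc (Z.card : ℝ) ^ 4 ≤ C * T ^ e * (X ^ (8 * (1 - σ)) + X ^ (6 - 8 * σ) * P) := hmain
      _ ≤ C * T ^ e * (X ^ (8 * (1 - σ)) + X ^ (8 * (1 - σ))) := by
          apply mul_le_mul_of_nonneg_left _ (by positivity)
          linarith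
      _ = (2 * C) * T ^ e * X ^ (8 * (1 - σ)) := by ring
  have h7 : ((2 * C) ^ (1 / 4 : ℝ) * T ^ (e / 4) * X ^ (2 * (1 - σ))) ^ 4
      = (2 * C) * T ^ e * X ^ (8 * (1 - σ)) := by
    rw [mul_pow, mul_pow, ← Real.rpow_natCast ((2 * C) ^ (1 / 4 : ℝ)) 4,
      ← Real.rpow_natCast (T ^ (e / 4)) 4, ← Real.rpow_natCast (X ^ (2 * (1 - σ))) 4,
      ← Real.rpow_mul (by positivity), ← Real.rpow_mul hT0.le, ← Real.rpow_mul hXpos.le]
    have e1 : (1 / 4 : ℝ) * ((4 : ℕ) : ℝ) = 1 := by norm_num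
    have e2 : e / 4 * ((4 : ℕ) : ℝ) = e := by push_cast; ring
    have e3 : 2 * (1 - σ) * ((4 : ℕ) : ℝ) = 8 * (1 - σ) := by push_cast; ring
    rw [e1, e2, e3, Real.rpow_one]
  have h8 : (Z.card : ℝ) ≤ (2 * C) ^ (1 / 4 : ℝ) * T ^ (e / 4) * X ^ (2 * (1 - σ)) := by
    refine le_of_pow_le_pow_left₀ (n := 4) (by norm_num) (by positivity) ?_
    rw [h7]
    exact h6
  have hT2e : 1 ≤ T ^ (2 * e) := Real.one_le_rpow hT1' (by linarith)
  have hX2 : X ^ 2 ≤ T ^ (2 * e) * (T * (T + E)) := by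
    have f1 : (T ^ (1 + e)) ^ 2 = T ^ (2 * e) * (T * T) := by
      rw [← Real.rpow_natCast, ← Real.rpow_mul hT0.le]
      have : (1 + e) * ((2 : ℕ) : ℝ) = 2 * e + 1 + 1 := by push_cast; ring
      rw [this, Real.rpow_add hT0, Real.rpow_add hT0, Real.rpow_one]
      ring
    have f2 : T ^ (2 * e) * (T * T) ≤ T ^ (2 * e) * (T * (T + E)) := by
      apply mul_le_mul_of_nonneg_left _ (by linarith)
      apply mul_le_mul_of_nonneg_left _ hT0.le
      linarith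
    have f3 : P ≤ T ^ (2 * e) * (T * (T + E)) := by
      calc P = 1 * (T * E) := by rw [hPdef]; ring
        _ ≤ T ^ (2 * e) * (T * (T + E)) := by
            apply mul_le_mul hT2e _ (by positivity) (by linarith)
            apply mul_le_mul_of_nonneg_left _ hT0.le
            linarith
    rcases le_total (T ^ (1 + e)) X₀ with h | h
    · rw [hXdef, max_eq_right h, hX02]
      exact f3
    · rw [hXdef, max_eq_left h, f1]
      exact f2
  have h9 : X ^ (2 * (1 - σ)) ≤ T ^ (2 * e) * (T * (T + E)) ^ (1 - σ) := by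
    calc X ^ (2 * (1 - σ)) = (X ^ 2) ^ (1 - σ) := by
          rw [← Real.rpow_natCast X 2, ← Real.rpow_mul hXpos.le]
          norm_num
      _ ≤ (T ^ (2 * e) * (T * (T + E))) ^ (1 - σ) :=
          Real.rpow_le_rpow (by positivity) hX2 (by linarith)
      _ = (T ^ (2 * e)) ^ (1 - σ) * (T * (T + E)) ^ (1 - σ) :=
          Real.mul_rpow (by positivity) (by positivity)
      _ ≤ T ^ (2 * e) * (T * (T + E)) ^ (1 - σ) := by
          apply mul_le_mul_of_nonneg_right _ (by positivity)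
          calc (T ^ (2 * e)) ^ (1 - σ) ≤ (T ^ (2 * e)) ^ (1 : ℝ) :=
                Real.rpow_le_rpow_of_exponent_le hT2e (by linarith)
            _ = T ^ (2 * e) := Real.rpow_one _
  have h10 : T ^ (e / 4) * T ^ (2 * e) ≤ T ^ (ε / 4) := by
    rw [← Real.rpow_add hT0]
    apply Real.rpow_le_rpow_of_exponent_le hT1'
    linarith
  calc (Z.card : ℝ) ≤ (2 * C) ^ (1 / 4 : ℝ) * T ^ (e / 4) * X ^ (2 * (1 - σ)) := h8
    _ ≤ (2 * C) ^ (1 / 4 : ℝ) * T ^ (e / 4) * (T ^ (2 * e) * (T * (T + E)) ^ (1 - σ)) :=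
      mul_le_mul_of_nonneg_left h9 (by positivity)
    _ = (2 * C) ^ (1 / 4 : ℝ) * (T ^ (e / 4) * T ^ (2 * e)) * (T * (T + E)) ^ (1 - σ) := by ring
    _ ≤ (2 * C) ^ (1 / 4 : ℝ) * T ^ (ε / 4) * (T * (T + E)) ^ (1 - σ) := by
      apply mul_le_mul_of_nonneg_right _ (by positivity)
      exact mul_le_mul_of_nonneg_left h10 (by positivity)

/-- The number of zeros above a fixed height, by dyadic decomposition. -/
theorem F6_high
    (hcore : ∀ ε : ℝ, 0 < ε → ∃ C T₀ : ℝ, 0 < C ∧ ∀ T : ℝ, T₀ ≤ T → ∀ σ : ℝ,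
      3 / 4 ≤ σ → σ ≤ 1 → ∀ X : ℝ, T ^ (1 + ε) ≤ X → X ≤ T ^ (6 : ℕ) →
      ∀ Z : Finset ℂ, Zer σ T Z → (Z.card : ℝ) ^ 4 ≤ C * T ^ ε *
          (X ^ (8 * (1 - σ)) + X ^ (6 - 8 * σ) * (T * (energy Z : ℝ))))
    (hge : ∀ Z : Finset ℂ, Z.card ^ 2 ≤ energy Z)
    (hmono : ∀ {Z' Z : Finset ℂ}, Z' ⊆ Z → energy Z' ≤ energy Z)
    (hle : ∀ Z : Finset ℂ, energy Z ≤ Z.card ^ 4)
    (hglob : ∃ C : ℝ, 0 < C ∧ ∀ T : ℝ, 2 ≤ T → ∀ Z : Finset ℂ,
      Zer (1 / 2) T Z → (Z.card : ℝ) ≤ C * T * Real.log T)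
    (ε : ℝ) (hε : 0 < ε) : ∃ C T₀ : ℝ, 0 < C ∧ 2 ≤ T₀ ∧ ∀ T σ : ℝ, 2 ≤ T →
      3 / 4 ≤ σ → σ ≤ 1 → ∀ Z : Finset ℂ,
      (∀ ρ ∈ Z, riemannZeta ρ = 0 ∧ σ ≤ ρ.re ∧ 2 * T₀ < ρ.im ∧ ρ.im ≤ T) →
        (Z.card : ℝ) ≤ C * Real.log T * T ^ (ε / 4) * (T * (T + (energy Z : ℝ))) ^ (1 - σ) := by
  classical
  obtain ⟨C, T₀, hC, hT0, h1⟩ := F6_block hcore hge hle hglob ε hε
  refine ⟨C * (2 / Real.log 2), T₀, by positivity, hT0, ?_⟩
  intro T σ hT hs1 hs2 Z hZ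
  have hTpos : 0 < T := by linarith
  have hl2 : 0 < Real.log 2 := Real.log_pos (by norm_num)
  have hlT : Real.log 2 ≤ Real.log T := Real.log_le_log (by norm_num) hT
  set J : ℕ := ⌊Real.log T / Real.log 2⌋₊ with hJ
  set g : ℂ → ℕ := fun ρ => ⌊Real.log (T / ρ.im) / Real.log 2⌋₊ with hg
  set B : ℝ := C * T ^ (ε / 4) * (T * (T + (energy Z : ℝ))) ^ (1 - σ) with hB
  have hmaps : ∀ ρ ∈ Z, g ρ ∈ Finset.range (J + 1) := by
    intro ρ hρ
    obtain ⟨_, _, a, b⟩ := hZ ρ hρ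
    rw [Finset.mem_range, Nat.lt_succ_iff]
    apply Nat.floor_le_floor
    apply div_le_div_of_nonneg_right _ hl2.le
    apply Real.log_le_log (by apply div_pos hTpos; linarith)
    rw [div_le_iff₀ (by linarith)]
    nlinarith
  have hfib : ∀ j ∈ Finset.range (J + 1), ((Z.filter (fun ρ => g ρ = j)).card : ℝ) ≤ B := by
    intro j _
    set W := Z.filter (fun ρ => g ρ = j) with hW
    rcases Finset.eq_empty_or_nonempty W with he | hne
    · rw [he]
      simp only [Finset.card_empty, Nat.cast_zero, hB]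
      positivity
    have key : ∀ ρ ∈ W, (2 : ℝ) ^ j * ρ.im ≤ T ∧ T < 2 ^ (j + 1) * ρ.im := by
      intro ρ hρ
      rw [hW, Finset.mem_filter] at hρ
      obtain ⟨hρZ, hj⟩ := hρ
      obtain ⟨_, _, a, b⟩ := hZ ρ hρZ
      have him : 0 < ρ.im := by linarith
      have hq : 0 < T / ρ.im := div_pos hTpos him
      have hq1 : 1 ≤ T / ρ.im := by rw [one_le_div him]; exact b
      have hx0 : 0 ≤ Real.log (T / ρ.im) / Real.log 2 :=
        div_nonneg (Real.log_nonneg hq1) hl2.le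
      have f1 : (j : ℝ) ≤ Real.log (T / ρ.im) / Real.log 2 := by
        rw [← hj]
        exact Nat.floor_le hx0
      have f2 : Real.log (T / ρ.im) / Real.log 2 < (j : ℝ) + 1 := by
        rw [← hj]
        exact Nat.lt_floor_add_one _
      rw [le_div_iff₀ hl2] at f1
      rw [div_lt_iff₀ hl2] at f2
      constructor
      · have : Real.log ((2 : ℝ) ^ j) ≤ Real.log (T / ρ.im) := by
          rw [Real.log_pow]; exact f1
        rw [Real.log_le_log_iff (by positivity) hq, le_div_iff₀ him] at this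
        exact this
      · have : Real.log (T / ρ.im) < Real.log ((2 : ℝ) ^ (j + 1)) := by
          rw [Real.log_pow]; push_cast; exact f2
        rw [Real.log_lt_log_iff hq (by positivity), div_lt_iff₀ him] at this
        exact this
    set S : ℝ := T / 2 ^ (j + 1) with hS
    have h2j : (0 : ℝ) < 2 ^ (j + 1) := by positivity
    have hST : S ≤ T := by
      rw [hS, div_le_iff₀ h2j]
      have : (1 : ℝ) ≤ 2 ^ (j + 1) := one_le_pow₀ (by norm_num)
      nlinarith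
    have hZer : Zer σ S W := by
      intro ρ hρ
      have h3 := key ρ hρ
      have hρZ : ρ ∈ Z := (Finset.mem_filter.mp hρ).1
      obtain ⟨a1, a2, a3, a4⟩ := hZ ρ hρZ
      refine ⟨a1, a2, ?_, ?_⟩
      · rw [hS, div_le_iff₀ h2j]
        nlinarith [h3.2]
      · rw [hS]
        have h5 : 2 * (T / 2 ^ (j + 1)) = T / 2 ^ j := by
          rw [pow_succ]
          field_simp
        rw [h5, le_div_iff₀ (by positivity)]
        nlinarith [h3.1]
    have hST0 : T₀ ≤ S := by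
      obtain ⟨ρ, hρ⟩ := hne
      have h3 := hZer ρ hρ
      have hρZ : ρ ∈ Z := (Finset.mem_filter.mp hρ).1
      have h4 := (hZ ρ hρZ).2.2.1
      have h5 := h3.2.2.2
      linarith
    have h6 := h1 S hST0 σ hs1 hs2 W hZer
    have hSpos : 0 < S := by linarith
    refine le_trans h6 ?_
    rw [hB]
    have hEW : (energy W : ℝ) ≤ (energy Z : ℝ) := by
      exact_mod_cast hmono (Finset.filter_subset _ _)
    have k1 : S ^ (ε / 4) ≤ T ^ (ε / 4) := Real.rpow_le_rpow hSpos.le hST (by positivity)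
    have k3 : (S * (S + (energy W : ℝ))) ^ (1 - σ) ≤ (T * (T + (energy Z : ℝ))) ^ (1 - σ) := by
      apply Real.rpow_le_rpow (by positivity)
      · exact mul_le_mul hST (add_le_add hST hEW) (by positivity) hTpos.le
      · linarith
    apply mul_le_mul (mul_le_mul_of_nonneg_left k1 hC.le) k3
    · positivity
    · positivity
  have hsum : Z.card = ∑ j ∈ Finset.range (J + 1), (Z.filter (fun ρ => g ρ = j)).card :=
    Finset.card_eq_sum_card_fiberwise hmaps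
  have hJle : ((J : ℝ) + 1) ≤ 2 / Real.log 2 * Real.log T := by
    have : (J : ℝ) ≤ Real.log T / Real.log 2 :=
      Nat.floor_le (div_nonneg (by linarith) hl2.le)
    have h7 : 1 ≤ Real.log T / Real.log 2 := by
      rw [one_le_div hl2]; exact hlT
    have h8 : 2 / Real.log 2 * Real.log T = 2 * (Real.log T / Real.log 2) := by ring
    rw [h8]
    linarith
  have hB0 : 0 ≤ B := by rw [hB]; positivity
  calc (Z.card : ℝ) = ∑ j ∈ Finset.range (J + 1), ((Z.filter (fun ρ => g ρ = j)).card : ℝ) := by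
        rw [hsum]; push_cast; rfl
    _ ≤ ∑ j ∈ Finset.range (J + 1), B := Finset.sum_le_sum hfib
    _ = ((J : ℝ) + 1) * B := by
        rw [Finset.sum_const, Finset.card_range, nsmul_eq_mul]; push_cast; ring
    _ ≤ (2 / Real.log 2 * Real.log T) * B := mul_le_mul_of_nonneg_right hJle hB0
    _ = C * (2 / Real.log 2) * Real.log T * T ^ (ε / 4) * (T * (T + (energy Z : ℝ))) ^ (1 - σ) := by rw [hB]; ring

theorem final6_of
    (hcore : ∀ ε : ℝ, 0 < ε → ∃ C T₀ : ℝ, 0 < C ∧ ∀ T : ℝ, T₀ ≤ T → ∀ σ : ℝ,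
      3 / 4 ≤ σ → σ ≤ 1 → ∀ X : ℝ, T ^ (1 + ε) ≤ X → X ≤ T ^ (6 : ℕ) →
      ∀ Z : Finset ℂ, Zer σ T Z → (Z.card : ℝ) ^ 4 ≤ C * T ^ ε *
          (X ^ (8 * (1 - σ)) + X ^ (6 - 8 * σ) * (T * (energy Z : ℝ))))
    (hge : ∀ Z : Finset ℂ, Z.card ^ 2 ≤ energy Z)
    (hmono : ∀ {Z' Z : Finset ℂ}, Z' ⊆ Z → energy Z' ≤ energy Z)
    (hle : ∀ Z : Finset ℂ, energy Z ≤ Z.card ^ 4)
    (htriv : ∀ {T : ℝ}, 0 ≤ T → ∀ Z : Finset ℂ, (∀ ρ ∈ Z, 0 ≤ ρ.im ∧ ρ.im ≤ T) →
      (Z.card : ℝ) ^ 4 ≤ (2 * T + 2) * (energy Z : ℝ))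
    (hglob : ∃ C : ℝ, 0 < C ∧ ∀ T : ℝ, 2 ≤ T → ∀ Z : Finset ℂ,
      Zer (1 / 2) T Z → (Z.card : ℝ) ≤ C * T * Real.log T)
    (hmult : ∃ C : ℝ, 0 < C ∧ ∀ T : ℝ, 2 ≤ T → ∀ ρ : ℂ, riemannZeta ρ = 0 → 0 < ρ.im →
      ρ.im ≤ T → (mult ρ : ℝ) ≤ C * Real.log T)
    (ε : ℝ) (hε : 0 < ε) : ∃ C : ℝ, 0 < C ∧ ∀ T σ : ℝ, 1 ≤ T → 1 / 2 ≤ σ → σ ≤ 1 →
    ∀ Z : Finset ℂ, (∀ ρ ∈ Z, riemannZeta ρ = 0 ∧ σ ≤ ρ.re ∧ 0 < ρ.im ∧ ρ.im ≤ T) →
      ∑ ρ ∈ Z, (mult ρ : ℝ) ≤ C * T ^ ε * (T * (T + (energy Z : ℝ))) ^ (1 - σ) := by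
  classical
  obtain ⟨C₁, T₀, hC₁, hT₀, h1⟩ := F6_high hcore hge hmono hle hglob ε hε
  obtain ⟨C₂, hC₂, h2⟩ := FN_low (2 * T₀)
  obtain ⟨C₃, hC₃, h3⟩ := hmult
  -- the constant
  set L : ℝ := 4 / ε with hL
  have hLpos : 0 < L := by positivity
  refine ⟨C₂ + C₃ * C₁ * L ^ 2 + C₃ * L * 2, by positivity, ?_⟩
  intro T σ hT hs1 hs2 Z hZ
  have hTpos : 0 < T := by linarith
  set R : ℝ := (T * (T + (energy Z : ℝ))) ^ (1 - σ) with hR
  have hEn : (0 : ℝ) ≤ (energy Z : ℝ) := Nat.cast_nonneg _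
  have hbase : 1 ≤ T * (T + (energy Z : ℝ)) := by nlinarith
  have hR1 : 1 ≤ R := Real.one_le_rpow hbase (by linarith)
  have hTe : 1 ≤ T ^ ε := Real.one_le_rpow hT hε.le
  have hlogT : Real.log T ≤ L * T ^ (ε / 4) := by
    have := Real.log_le_rpow_div hTpos.le (show 0 < ε / 4 by positivity)
    rw [hL]
    calc Real.log T ≤ T ^ (ε / 4) / (ε / 4) := this
      _ = 4 / ε * T ^ (ε / 4) := by field_simp
  have hlog0 : 0 ≤ Real.log T := Real.log_nonneg hT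
  have hte1 : 1 ≤ T ^ (ε / 4) := Real.one_le_rpow hT (by positivity)
  have hte4 : T ^ ε = (T ^ (ε / 4)) ^ 4 := by
    rw [← Real.rpow_natCast, ← Real.rpow_mul hTpos.le]
    congr 1
    push_cast
    ring
  -- low zeros
  set Zl := Z.filter (fun ρ => ρ.im ≤ 2 * T₀) with hZl
  set Zh := Z.filter (fun ρ => ¬ ρ.im ≤ 2 * T₀) with hZh
  have hsplit : ∑ ρ ∈ Z, (mult ρ : ℝ) = ∑ ρ ∈ Zl, (mult ρ : ℝ) + ∑ ρ ∈ Zh, (mult ρ : ℝ) :=
    (Finset.sum_filter_add_sum_filter_not Z _ _).symm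
  have hlow : ∑ ρ ∈ Zl, (mult ρ : ℝ) ≤ C₂ := by
    apply h2
    intro ρ hρ
    rw [hZl, Finset.mem_filter] at hρ
    obtain ⟨a, b, c, e⟩ := hZ ρ hρ.1
    exact ⟨a, by linarith, c, hρ.2⟩
  have hlow2 : C₂ ≤ C₂ * T ^ ε * R := by
    have : 1 ≤ T ^ ε * R := by nlinarith
    nlinarith
  have hhigh : ∑ ρ ∈ Zh, (mult ρ : ℝ) ≤ (C₃ * C₁ * L ^ 2 + C₃ * L * 2) * T ^ ε * R := by
    rcases Finset.eq_empty_or_nonempty Zh with he | hne
    · rw [he, Finset.sum_empty]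
      positivity
    have hT2 : 2 ≤ T := by
      obtain ⟨ρ, hρ⟩ := hne
      rw [hZh, Finset.mem_filter] at hρ
      have := (hZ ρ hρ.1).2.2.2
      have h4 := hρ.2
      push Not at h4
      linarith
    have hsm : ∑ ρ ∈ Zh, (mult ρ : ℝ) ≤ (Zh.card : ℝ) * (C₃ * Real.log T) := by
      rw [← nsmul_eq_mul]
      apply Finset.sum_le_card_nsmul
      intro ρ hρ
      rw [hZh, Finset.mem_filter] at hρ
      obtain ⟨a, b, c, e⟩ := hZ ρ hρ.1
      exact h3 T hT2 ρ a c e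
    have hEh : (energy Zh : ℝ) ≤ (energy Z : ℝ) := by
      exact_mod_cast hmono (Finset.filter_subset _ _)
    rcases le_total (3 / 4) σ with hs3 | hs3
    · have hcard := h1 T σ hT2 hs3 hs2 Zh (by
        intro ρ hρ
        rw [hZh, Finset.mem_filter] at hρ
        obtain ⟨a, b, c, e⟩ := hZ ρ hρ.1
        have h4 := hρ.2
        push Not at h4
        exact ⟨a, b, h4, e⟩)
      have hRh : (T * (T + (energy Zh : ℝ))) ^ (1 - σ) ≤ R := by
        rw [hR]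
        apply Real.rpow_le_rpow (by positivity)
        · apply mul_le_mul_of_nonneg_left _ hTpos.le
          linarith
        · linarith
      have hcard2 : (Zh.card : ℝ) ≤ C₁ * (L * T ^ (ε / 4)) * T ^ (ε / 4) * R := by
        refine le_trans hcard ?_
        apply mul_le_mul _ hRh (by positivity) (by positivity)
        apply mul_le_mul_of_nonneg_right _ (by positivity)
        exact mul_le_mul_of_nonneg_left hlogT hC₁.le
      calc ∑ ρ ∈ Zh, (mult ρ : ℝ) ≤ (Zh.card : ℝ) * (C₃ * Real.log T) := hsm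
        _ ≤ (C₁ * (L * T ^ (ε / 4)) * T ^ (ε / 4) * R) * (C₃ * (L * T ^ (ε / 4))) := by
            apply mul_le_mul hcard2 (mul_le_mul_of_nonneg_left hlogT hC₃.le) (by positivity)
              (by positivity)
        _ = C₃ * C₁ * L ^ 2 * (T ^ (ε / 4)) ^ 3 * R := by ring
        _ ≤ C₃ * C₁ * L ^ 2 * (T ^ (ε / 4)) ^ 4 * R := by
            apply mul_le_mul_of_nonneg_right _ (by linarith)
            apply mul_le_mul_of_nonneg_left _ (by positivity)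
            exact pow_le_pow_right₀ hte1 (by norm_num)
        _ = C₃ * C₁ * L ^ 2 * T ^ ε * R := by rw [hte4]
        _ ≤ (C₃ * C₁ * L ^ 2 + C₃ * L * 2) * T ^ ε * R := by
            apply mul_le_mul_of_nonneg_right _ (by linarith)
            apply mul_le_mul_of_nonneg_right _ (by linarith)
            have : 0 < C₃ * L * 2 := by positivity
            linarith
    · have hZne : Z.Nonempty := hne.mono (Finset.filter_subset _ _)
      have hcard1 : 1 ≤ Z.card := Finset.card_pos.mpr hZne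
      have hE1 : (1 : ℝ) ≤ (energy Z : ℝ) := by
        have h4 : 1 ≤ energy Z := le_trans (Nat.one_le_pow _ _ hcard1) (hge Z)
        exact_mod_cast h4
      have hcard := htriv hTpos.le Z (fun ρ hρ => ⟨(hZ ρ hρ).2.2.1.le, (hZ ρ hρ).2.2.2⟩)
      set P : ℝ := T * (energy Z : ℝ) with hP
      have hP1 : 1 ≤ P := by nlinarith
      have hc4 : (Z.card : ℝ) ^ 4 ≤ (2 * P ^ (1 / 4 : ℝ)) ^ 4 := by
        rw [mul_pow, ← Real.rpow_natCast (P ^ (1 / 4 : ℝ)) 4, ← Real.rpow_mul (by linarith)]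
        have e1 : (1 / 4 : ℝ) * ((4 : ℕ) : ℝ) = 1 := by norm_num
        rw [e1, Real.rpow_one]
        refine le_trans hcard ?_
        have h9 : 2 * T + 2 ≤ 16 * T := by linarith
        calc (2 * T + 2) * (energy Z : ℝ) ≤ (16 * T) * (energy Z : ℝ) :=
              mul_le_mul_of_nonneg_right h9 (by linarith)
          _ = 2 ^ 4 * P := by rw [hP]; ring
      have hc : (Z.card : ℝ) ≤ 2 * P ^ (1 / 4 : ℝ) :=
        le_of_pow_le_pow_left₀ (n := 4) (by norm_num) (by positivity) hc4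
      have hPR : P ^ (1 / 4 : ℝ) ≤ R := by
        calc P ^ (1 / 4 : ℝ) ≤ P ^ (1 - σ) :=
              Real.rpow_le_rpow_of_exponent_le hP1 (by linarith)
          _ ≤ R := by
              rw [hR]
              apply Real.rpow_le_rpow (by linarith) _ (by linarith)
              rw [hP]
              apply mul_le_mul_of_nonneg_left _ hTpos.le
              linarith
      have hch : (Zh.card : ℝ) ≤ 2 * R := by
        have : (Zh.card : ℝ) ≤ (Z.card : ℝ) := by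
          exact_mod_cast Finset.card_le_card (Finset.filter_subset _ _)
        linarith
      calc ∑ ρ ∈ Zh, (mult ρ : ℝ) ≤ (Zh.card : ℝ) * (C₃ * Real.log T) := hsm
        _ ≤ (2 * R) * (C₃ * (L * T ^ (ε / 4))) := by
            apply mul_le_mul hch (mul_le_mul_of_nonneg_left hlogT hC₃.le) (by positivity)
              (by positivity)
        _ = C₃ * L * 2 * T ^ (ε / 4) * R := by ring
        _ ≤ C₃ * L * 2 * T ^ ε * R := by
            apply mul_le_mul_of_nonneg_right _ (by linarith)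
            apply mul_le_mul_of_nonneg_left _ (by positivity)
            apply Real.rpow_le_rpow_of_exponent_le hT
            linarith
        _ ≤ (C₃ * C₁ * L ^ 2 + C₃ * L * 2) * T ^ ε * R := by
            apply mul_le_mul_of_nonneg_right _ (by linarith)
            apply mul_le_mul_of_nonneg_right _ (by linarith)
            have : 0 < C₃ * C₁ * L ^ 2 := by positivity
            linarith
  rw [hsplit]
  calc ∑ ρ ∈ Zl, (mult ρ : ℝ) + ∑ ρ ∈ Zh, (mult ρ : ℝ)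
      ≤ C₂ * T ^ ε * R + (C₃ * C₁ * L ^ 2 + C₃ * L * 2) * T ^ ε * R :=
        add_le_add (le_trans hlow hlow2) hhigh
    _ = (C₂ + C₃ * C₁ * L ^ 2 + C₃ * L * 2) * T ^ ε * R := by ring

end Pool.Agent.helper78.ED
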