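import Pool.Agent.helper78.ED.Main
import Pool.Agent.helper85.ED.XR
import Pool.Agent.helper85.ED.S6
import Pool.Agent.helper99.ED.RF
import Pool.Agent.helper33.ED.M6

/-! # Project ED: the theorem -/

set_option autoImplicit false

open Complex MeasureTheory

namespace Pool.Agent.helper78.ED

open Pool.Agent.helper84.DM

/-- Bound for the number of zeros in terms of their additive energy. -/
theorem final6 (ε : ℝ) (hε : 0 < ε) : ∃ C : ℝ, 0 < C ∧ ∀ T σ : ℝ, 1 ≤ T → 1 / 2 ≤ σ → σ ≤ 1 →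
    ∀ Z : Finset ℂ, (∀ ρ ∈ Z, riemannZeta ρ = 0 ∧ σ ≤ ρ.re ∧ 0 < ρ.im ∧ ρ.im ≤ T) →
      ∑ ρ ∈ Z, (mult ρ : ℝ) ≤ C * T ^ ε * (T * (T + (energy Z : ℝ))) ^ (1 - σ) :=
  final6_from (moments6_of (fun k hk => SS_refl_of k hk (X_line k) (X_strip k) (zeta_strip k))
    sixth) ε hε

end Pool.Agent.helper78.ED
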