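import Pool.Agent.helper97.ED.PS
import Pool.Agent.helper78.ED.Defs2

/-! # Project ED, module P6: sum over the pairs, sixth moment form -/

set_option autoImplicit false

open Complex MeasureTheory

namespace Pool.Agent.helper78.ED

open Pool.Agent.helper84.DM

/-- Holder inequality with exponents `3/2, 6, 6`. -/
theorem P6_holder (r A : ℕ → ℝ) (hr : ∀ j, 0 ≤ r j) (hA : ∀ j, 0 ≤ A j) (J : ℕ) :
    (∑ j ∈ Finset.range J, r j * A j) ^ 6 ≤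
      (∑ j ∈ Finset.range J, r j) ^ 4 * ((∑ j ∈ Finset.range J, r j ^ 2) *
        ∑ j ∈ Finset.range J, A j ^ 6) := by
  set u : ℝ := ∑ j ∈ Finset.range J, r j with hu
  set s₁ : ℝ := ∑ j ∈ Finset.range J, r j * A j with hs₁
  set s₂ : ℝ := ∑ j ∈ Finset.range J, r j * A j ^ 2 with hs₂
  set s₃ : ℝ := ∑ j ∈ Finset.range J, r j * A j ^ 3 with hs₃
  have hu0 : 0 ≤ u := Finset.sum_nonneg fun i _ => hr i
  have h1' : 0 ≤ s₁ := Finset.sum_nonneg fun i _ => mul_nonneg (hr i) (hA i)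
  have h2' : 0 ≤ s₂ := Finset.sum_nonneg fun i _ => mul_nonneg (hr i) (by have := hA i; positivity)
  have h3' : 0 ≤ s₃ := Finset.sum_nonneg fun i _ => mul_nonneg (hr i) (by have := hA i; positivity)
  have h1 : s₁ ^ 2 ≤ u * s₂ := by
    apply Finset.sum_sq_le_sum_mul_sum_of_sq_le_mul
    · intro i _; exact hr i
    · intro i _; exact mul_nonneg (hr i) (sq_nonneg _)
    · intro i _; exact le_of_eq (by ring)
  have h2 : s₂ ^ 2 ≤ s₁ * s₃ := by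
    apply Finset.sum_sq_le_sum_mul_sum_of_sq_le_mul
    · intro i _; exact mul_nonneg (hr i) (hA i)
    · intro i _; exact mul_nonneg (hr i) (by have := hA i; positivity)
    · intro i _; exact le_of_eq (by ring)
  have h3 : s₃ ^ 2 ≤ (∑ j ∈ Finset.range J, r j ^ 2) * ∑ j ∈ Finset.range J, A j ^ 6 := by
    apply Finset.sum_sq_le_sum_mul_sum_of_sq_le_mul
    · intro i _; exact sq_nonneg _
    · intro i _; have := hA i; positivity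
    · intro i _; exact le_of_eq (by ring)
  have h4 : s₁ ^ 3 ≤ u ^ 2 * s₃ := by
    rcases h1'.eq_or_lt with h | h
    · rw [← h]
      have : 0 ≤ u ^ 2 * s₃ := by positivity
      simpa using this
    · have h5 : s₁ ^ 3 * s₁ ≤ (u ^ 2 * s₃) * s₁ := by
        calc s₁ ^ 3 * s₁ = (s₁ ^ 2) ^ 2 := by ring
          _ ≤ (u * s₂) ^ 2 := pow_le_pow_left₀ (sq_nonneg _) h1 2
          _ = u ^ 2 * s₂ ^ 2 := by ring
          _ ≤ u ^ 2 * (s₁ * s₃) := mul_le_mul_of_nonneg_left h2 (sq_nonneg _)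
          _ = (u ^ 2 * s₃) * s₁ := by ring
      exact le_of_mul_le_mul_right h5 h
  calc s₁ ^ 6 = (s₁ ^ 3) ^ 2 := by ring
    _ ≤ (u ^ 2 * s₃) ^ 2 := pow_le_pow_left₀ (by positivity) h4 2
    _ = u ^ 4 * s₃ ^ 2 := by ring
    _ ≤ _ := mul_le_mul_of_nonneg_left h3 (by positivity)

theorem pair_sum6_of
    (hlc : ∃ C : ℝ, 0 < C ∧ ∀ T : ℝ, 2 ≤ T → ∀ Z : Finset ℂ,
      (∀ ρ ∈ Z, riemannZeta ρ = 0 ∧ 1 / 2 ≤ ρ.re) → ∀ t : ℝ, 1 ≤ t → t ≤ 3 * T →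
        (loc Z t : ℝ) ≤ C * Real.log T)
    (htriv : ∃ C : ℝ, 0 < C ∧ ∀ M z τ : ℝ, 1 ≤ M → 0 ≤ z → ‖SS M z τ‖ ≤ C * M)
    (hmom : ∀ ε : ℝ, 0 < ε → ∃ C T₀ : ℝ, 0 < C ∧ ∀ T : ℝ, T₀ ≤ T → ∀ M : ℝ,
      T ^ (2 / 3 : ℝ) ≤ M → M ≤ T ^ (6 : ℕ) → ∃ A : ℕ → ℝ, (∀ j, 0 ≤ A j) ∧
        (∀ z τ : ℝ, 0 ≤ z → z ≤ 1 → Real.log T ≤ |τ| → |τ| ≤ T →
          ‖SS M z τ‖ ≤ M ^ (1 / 2 : ℝ) * A ⌊|τ|⌋₊) ∧
        ∑ j ∈ Finset.range (⌊T⌋₊ + 1), A j ^ 6 ≤ C * T ^ (1 + ε))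
    (hrsq : ∀ (Z : Finset ℂ) (J : ℕ),
      ∑ j ∈ Finset.range J, (rr Z j : ℝ) ^ 2 ≤ 4 * (energy Z : ℝ))
    (hrsum : ∀ (Z : Finset ℂ) (J : ℕ),
      ∑ j ∈ Finset.range J, (rr Z j : ℝ) ≤ (Z.card : ℝ) ^ 2)
    (ε : ℝ) (hε : 0 < ε) : ∃ C T₀ : ℝ, 0 < C ∧
    ∀ T : ℝ, T₀ ≤ T → ∀ σ M : ℝ, 1 / 2 ≤ σ → T ^ (2 / 3 : ℝ) ≤ M → M ≤ T ^ (6 : ℕ) →
      ∀ Z : Finset ℂ, Zer σ T Z →
        ∑ ρ ∈ Z, ∑ ρ' ∈ Z, ‖SS M (ρ.re + ρ'.re - 2 * σ) (ρ.im - ρ'.im)‖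
          ≤ C * T ^ ε * ((Z.card : ℝ) * M +
            M ^ (1 / 2 : ℝ) * (Z.card : ℝ) ^ (4 / 3 : ℝ) *
              (T * (energy Z : ℝ)) ^ (1 / 6 : ℝ)) := by
  classical
  obtain ⟨C₁, hC₁, h1⟩ := hlc
  obtain ⟨C₂, hC₂, h2⟩ := htriv
  obtain ⟨C₄, T₄, hC₄, h4⟩ := hmom (6 * ε) (by positivity)
  refine ⟨16 * C₁ * C₂ / ε ^ 2 + (4 * C₄) ^ (1 / 6 : ℝ), max T₄ 4,
    by positivity, ?_⟩
  intro T hT σ M hσ hM23 hM6 Z hZ
  have hT4 : T₄ ≤ T := le_trans (le_max_left _ _) hT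
  have hT5 : 4 ≤ T := le_trans (le_max_right _ _) hT
  have hT0 : 0 < T := by linarith
  have hL1 : 1 ≤ Real.log T := by
    rw [← Real.log_exp 1]
    apply Real.log_le_log (Real.exp_pos 1)
    have := Real.exp_one_lt_d9
    linarith
  have hLT : Real.log T + 2 ≤ T := PS_log hT5
  have hM : 1 ≤ M := (Real.one_le_rpow (by linarith) (by norm_num)).trans hM23
  have hMpos : 0 < M := by linarith
  obtain ⟨A, hA0, hA1, hA2⟩ := h4 T hT4 M hM23 hM6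
  -- the pairs
  have hz : ∀ ρ ∈ Z, ∀ ρ' ∈ Z, 0 ≤ ρ.re + ρ'.re - 2 * σ ∧ ρ.re + ρ'.re - 2 * σ ≤ 1 ∧
      |ρ.im - ρ'.im| ≤ T := by
    intro ρ hρ ρ' hρ'
    obtain ⟨a, b, c, e⟩ := hZ ρ hρ
    obtain ⟨a', b', c', e'⟩ := hZ ρ' hρ'
    have h5 : ρ.re < 1 := by
      by_contra hcon
      push Not at hcon
      exact riemannZeta_ne_zero_of_one_le_re hcon a
    have h6 : ρ'.re < 1 := by
      by_contra hcon
      push Not at hcon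
      exact riemannZeta_ne_zero_of_one_le_re hcon a'
    refine ⟨by linarith, by linarith, ?_⟩
    rw [abs_le]
    constructor <;> linarith
  have hpt : ∀ ρ ∈ Z, ∀ ρ' ∈ Z, ‖SS M (ρ.re + ρ'.re - 2 * σ) (ρ.im - ρ'.im)‖ ≤
      (if |ρ.im - ρ'.im| < Real.log T then C₂ * M else 0) +
        M ^ (1 / 2 : ℝ) * A ⌊|ρ.im - ρ'.im|⌋₊ := by
    intro ρ hρ ρ' hρ'
    obtain ⟨a, b, c⟩ := hz ρ hρ ρ' hρ'
    have hnn : 0 ≤ M ^ (1 / 2 : ℝ) * A ⌊|ρ.im - ρ'.im|⌋₊ :=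
      mul_nonneg (by positivity) (hA0 _)
    by_cases hlt : |ρ.im - ρ'.im| < Real.log T
    · rw [if_pos hlt]
      have := h2 M (ρ.re + ρ'.re - 2 * σ) (ρ.im - ρ'.im) hM a
      linarith
    · rw [if_neg hlt, zero_add]
      push Not at hlt
      exact hA1 _ _ a b hlt c
  have hnear : ∑ ρ ∈ Z, ∑ ρ' ∈ Z, (if |ρ.im - ρ'.im| < Real.log T then C₂ * M else 0) ≤
      (Z.card : ℝ) * (4 * C₁ * Real.log T ^ 2 * (C₂ * M)) := by
    rw [← nsmul_eq_mul]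
    apply Finset.sum_le_card_nsmul
    intro ρ hρ
    rw [← Finset.sum_filter, Finset.sum_const, nsmul_eq_mul]
    apply mul_le_mul_of_nonneg_right _ (by positivity)
    obtain ⟨a, b, c, e⟩ := hZ ρ hρ
    apply PS_near hL1 hLT Z hC₁.le _ ρ.im c e
    intro t ht1 ht2
    apply h1 T (by linarith) Z _ t ht1 ht2
    intro ρ' hρ'
    obtain ⟨a', b', c', e'⟩ := hZ ρ' hρ'
    exact ⟨a', by linarith⟩
  have hfar : ∑ ρ ∈ Z, ∑ ρ' ∈ Z, A ⌊|ρ.im - ρ'.im|⌋₊ =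
      ∑ j ∈ Finset.range (⌊T⌋₊ + 1), (rr Z j : ℝ) * A j := by
    rw [← Finset.sum_product' Z Z (fun ρ ρ' => A ⌊|ρ.im - ρ'.im|⌋₊)]
    rw [← Finset.sum_fiberwise_of_maps_to (s := Z ×ˢ Z) (t := Finset.range (⌊T⌋₊ + 1))
      (g := fun q : ℂ × ℂ => ⌊|q.1.im - q.2.im|⌋₊)]
    · apply Finset.sum_congr rfl
      intro j _
      rw [rr, ← nsmul_eq_mul, ← Finset.sum_const]
      apply Finset.sum_congr rfl
      intro q hq
      rw [Finset.mem_filter] at hq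
      rw [hq.2]
    · intro q hq
      rw [Finset.mem_product] at hq
      obtain ⟨a, b, c⟩ := hz q.1 hq.1 q.2 hq.2
      rw [Finset.mem_range, Nat.lt_succ_iff]
      exact Nat.floor_le_floor c
  set R : ℝ := (Z.card : ℝ) with hR
  have hR0 : 0 ≤ R := Nat.cast_nonneg _
  have hfar2 : ∑ j ∈ Finset.range (⌊T⌋₊ + 1), (rr Z j : ℝ) * A j ≤
      (4 * C₄) ^ (1 / 6 : ℝ) * T ^ ε * (R ^ (4 / 3 : ℝ) *
        (T * (energy Z : ℝ)) ^ (1 / 6 : ℝ)) := by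
    have hE0 : (0 : ℝ) ≤ (energy Z : ℝ) := Nat.cast_nonneg _
    refine le_of_pow_le_pow_left₀ (n := 6) (by norm_num) (by positivity) ?_
    refine le_trans (P6_holder (fun j => (rr Z j : ℝ)) A (fun j => Nat.cast_nonneg _) hA0 _) ?_
    have e1 : ((4 * C₄) ^ (1 / 6 : ℝ)) ^ 6 = 4 * C₄ := by
      rw [← Real.rpow_natCast, ← Real.rpow_mul (by positivity)]
      norm_num
    have e2 : ((T * (energy Z : ℝ)) ^ (1 / 6 : ℝ)) ^ 6 = T * (energy Z : ℝ) := by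
      rw [← Real.rpow_natCast, ← Real.rpow_mul (by positivity)]
      norm_num
    have e3 : T * (T ^ ε) ^ 6 = T ^ (1 + 6 * ε) := by
      rw [← Real.rpow_natCast, ← Real.rpow_mul hT0.le, Real.rpow_add hT0, Real.rpow_one]
      congr 2
      push_cast
      ring
    have e4 : (R ^ (4 / 3 : ℝ)) ^ 6 = R ^ 8 := by
      rw [← Real.rpow_natCast, ← Real.rpow_mul hR0, ← Real.rpow_natCast R 8]
      congr 1; push_cast; norm_num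
    rw [mul_pow, mul_pow, mul_pow, e1, e2, e4]
    have g1 : (∑ j ∈ Finset.range (⌊T⌋₊ + 1), (rr Z j : ℝ)) ^ 4 ≤ R ^ 8 := by
      calc (∑ j ∈ Finset.range (⌊T⌋₊ + 1), (rr Z j : ℝ)) ^ 4
          ≤ (R ^ 2) ^ 4 :=
            pow_le_pow_left₀ (Finset.sum_nonneg (fun j _ => Nat.cast_nonneg _)) (hrsum Z _) 4
        _ = R ^ 8 := by ring
    have g2 : (∑ j ∈ Finset.range (⌊T⌋₊ + 1), (rr Z j : ℝ) ^ 2) *
        ∑ j ∈ Finset.range (⌊T⌋₊ + 1), A j ^ 6 ≤ (4 * (energy Z : ℝ)) * (C₄ * T ^ (1 + 6 * ε)) := by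
      apply mul_le_mul (hrsq Z _) hA2 _ (by positivity)
      exact Finset.sum_nonneg (fun j _ => by have := hA0 j; positivity)
    calc (∑ j ∈ Finset.range (⌊T⌋₊ + 1), (rr Z j : ℝ)) ^ 4 *
          ((∑ j ∈ Finset.range (⌊T⌋₊ + 1), (rr Z j : ℝ) ^ 2) *
            ∑ j ∈ Finset.range (⌊T⌋₊ + 1), A j ^ 6)
        ≤ R ^ 8 * ((4 * (energy Z : ℝ)) * (C₄ * T ^ (1 + 6 * ε))) := by
          apply mul_le_mul g1 g2 _ (by positivity)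
          apply mul_nonneg
          · exact Finset.sum_nonneg (fun j _ => by positivity)
          · exact Finset.sum_nonneg (fun j _ => by have := hA0 j; positivity)
      _ = 4 * C₄ * (T ^ ε) ^ 6 * (R ^ 8 * (T * (energy Z : ℝ))) := by
          rw [← e3]; ring
  -- the logarithm
  have hlog2 : Real.log T ^ 2 ≤ 4 / ε ^ 2 * T ^ ε := by
    have h5 := Real.log_le_rpow_div hT0.le (show 0 < ε / 2 by positivity)
    have h6 : (T ^ (ε / 2)) ^ 2 = T ^ ε := by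
      rw [← Real.rpow_natCast, ← Real.rpow_mul hT0.le]
      congr 1
      push_cast
      ring
    calc Real.log T ^ 2 ≤ (T ^ (ε / 2) / (ε / 2)) ^ 2 :=
          pow_le_pow_left₀ (by linarith) h5 2
      _ = 4 / ε ^ 2 * T ^ ε := by rw [div_pow, h6]; field_simp; ring
  calc ∑ ρ ∈ Z, ∑ ρ' ∈ Z, ‖SS M (ρ.re + ρ'.re - 2 * σ) (ρ.im - ρ'.im)‖
      ≤ ∑ ρ ∈ Z, ∑ ρ' ∈ Z, ((if |ρ.im - ρ'.im| < Real.log T then C₂ * M else 0) +
        M ^ (1 / 2 : ℝ) * A ⌊|ρ.im - ρ'.im|⌋₊) :=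
        Finset.sum_le_sum (fun ρ hρ => Finset.sum_le_sum (fun ρ' hρ' => hpt ρ hρ ρ' hρ'))
    _ = ∑ ρ ∈ Z, ∑ ρ' ∈ Z, (if |ρ.im - ρ'.im| < Real.log T then C₂ * M else 0) +
        M ^ (1 / 2 : ℝ) * ∑ ρ ∈ Z, ∑ ρ' ∈ Z, A ⌊|ρ.im - ρ'.im|⌋₊ := by
        simp only [Finset.sum_add_distrib, Finset.mul_sum]
    _ ≤ R * (4 * C₁ * Real.log T ^ 2 * (C₂ * M)) +
        M ^ (1 / 2 : ℝ) * ((4 * C₄) ^ (1 / 6 : ℝ) * T ^ ε * (R ^ (4 / 3 : ℝ) *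
        (T * (energy Z : ℝ)) ^ (1 / 6 : ℝ))) := by
        apply add_le_add hnear
        apply mul_le_mul_of_nonneg_left _ (by positivity)
        rw [hfar]
        exact hfar2
    _ ≤ R * (4 * C₁ * (4 / ε ^ 2 * T ^ ε) * (C₂ * M)) +
        M ^ (1 / 2 : ℝ) * ((4 * C₄) ^ (1 / 6 : ℝ) * T ^ ε * (R ^ (4 / 3 : ℝ) *
        (T * (energy Z : ℝ)) ^ (1 / 6 : ℝ))) := by
        apply add_le_add _ le_rfl
        apply mul_le_mul_of_nonneg_left _ hR0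
        apply mul_le_mul_of_nonneg_right _ (by positivity)
        exact mul_le_mul_of_nonneg_left hlog2 (by positivity)
    _ = T ^ ε * ((16 * C₁ * C₂ / ε ^ 2) * (R * M) + (4 * C₄) ^ (1 / 6 : ℝ) *
          (M ^ (1 / 2 : ℝ) * R ^ (4 / 3 : ℝ) * (T * (energy Z : ℝ)) ^ (1 / 6 : ℝ))) := by
        field_simp
        ring
    _ ≤ T ^ ε * ((16 * C₁ * C₂ / ε ^ 2 + (4 * C₄) ^ (1 / 6 : ℝ)) *
          (R * M + M ^ (1 / 2 : ℝ) * R ^ (4 / 3 : ℝ) *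
            (T * (energy Z : ℝ)) ^ (1 / 6 : ℝ))) := by
        apply mul_le_mul_of_nonneg_left _ (by positivity)
        have q1 : 0 ≤ 16 * C₁ * C₂ / ε ^ 2 := by positivity
        have q2 : 0 ≤ (4 * C₄) ^ (1 / 6 : ℝ) := by positivity
        have q3 : 0 ≤ M ^ (1 / 2 : ℝ) * R ^ (4 / 3 : ℝ) *
          (T * (energy Z : ℝ)) ^ (1 / 6 : ℝ) := by positivity
        have q4 : 0 ≤ R * M := by positivity
        nlinarith [mul_nonneg q1 q3, mul_nonneg q2 q4]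
    _ = _ := by ring

end Pool.Agent.helper78.ED
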