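import Pool.Agent.helper26.ED.MO
import Pool.Agent.helper26.ED.PH
import Pool.Agent.helper18.ED.SE
import Pool.Agent.helper18.ED.SH
import Pool.Agent.helper13.ED.TL
import Pool.Agent.helper13.ED.DT
import Pool.Agent.helper63.ED.LC
import Pool.Agent.helper63.ED.PW
import Pool.Agent.helper71.ED.C2
import Pool.Agent.helper71.ED.R6
import Pool.Agent.helper93.ED.WG
import Pool.Agent.helper14.ED.EN
import Pool.Agent.helper15.ED.CP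
import Pool.Agent.helper78.ED.C6
import Pool.Agent.helper78.ED.P6
import Pool.Agent.helper78.ED.F6

/-! # Project ED: assembly, from the sixth moment of the smooth zeta sum -/

set_option autoImplicit false

open Complex MeasureTheory

namespace Pool.Agent.helper78.ED

open Pool.Agent.helper84.DM

theorem detect (δ κ η : ℝ) (hδ : 0 < δ) (hδ1 : δ ≤ 1 / 4) (hκ : 0 < κ) (hη : 0 < η)
    (hη1 : η ≤ 1 / 8) : ∃ (c : ℝ → ℕ → ℂ) (C T₀ : ℝ), 0 < C ∧ ∀ T : ℝ, T₀ ≤ T →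
      (∀ n : ℕ, 1 ≤ n → (n : ℝ) ≤ T → ‖c T n‖ ≤ C * T ^ κ) ∧
      ∀ ρ : ℂ, riemannZeta ρ = 0 → 1 / 2 + 2 * η ≤ ρ.re → T ≤ ρ.im → ρ.im ≤ 2 * T →
        1 / 4 ≤ ‖∑ n ∈ Finset.Ioc ⌊T ^ δ⌋₊ ⌊T ^ (1 / 2 + δ)⌋₊, c T n * (n : ℂ) ^ (-ρ)‖ +
          C * T ^ δ * Real.sqrt T ^ (1 / 2 + η - ρ.re) * Zt η (T / 2) ρ.im :=
  detect_of am_one am_zero am_le phi_one phi_small right_line (tail_of am_le phi_tail) shift
    δ κ η hδ hδ1 hκ hη hη1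

/-- The theorem, from the sixth moment. -/
theorem final6_from
    (hmom : ∀ ε : ℝ, 0 < ε → ∃ C T₀ : ℝ, 0 < C ∧ ∀ T : ℝ, T₀ ≤ T → ∀ M : ℝ,
      T ^ (2 / 3 : ℝ) ≤ M → M ≤ T ^ (6 : ℕ) → ∃ A : ℕ → ℝ, (∀ j, 0 ≤ A j) ∧
        (∀ z τ : ℝ, 0 ≤ z → z ≤ 1 → Real.log T ≤ |τ| → |τ| ≤ T →
          ‖SS M z τ‖ ≤ M ^ (1 / 2 : ℝ) * A ⌊|τ|⌋₊) ∧
        ∑ j ∈ Finset.range (⌊T⌋₊ + 1), A j ^ 6 ≤ C * T ^ (1 + ε))
    (ε : ℝ) (hε : 0 < ε) : ∃ C : ℝ, 0 < C ∧ ∀ T σ : ℝ, 1 ≤ T → 1 / 2 ≤ σ → σ ≤ 1 →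
    ∀ Z : Finset ℂ, (∀ ρ ∈ Z, riemannZeta ρ = 0 ∧ σ ≤ ρ.re ∧ 0 < ρ.im ∧ ρ.im ≤ T) →
      ∑ ρ ∈ Z, (mult ρ : ℝ) ≤ C * T ^ ε * (T * (T + (energy Z : ℝ))) ^ (1 - σ) := by
  have hws : ∀ M : ℝ, 1 ≤ M → Summable (wg M) := by
    obtain ⟨C, hC, h⟩ := wg_sum
    exact fun M hM => (h M hM).1
  have hps := pair_sum6_of local_count SS_triv hmom rr_sq rr_sum
  have hco := class_one6_of hws wg_lower
    (fun N hN c B hB hc k hk => pow_poly N hN c B hB hc k hk) choose_pow2 hps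
  have hcr := core6_of detect (class_two_of local_count) hco (fun Z' Z h => energy_mono h)
  exact final6_of hcr energy_ge energy_mono energy_le energy_triv global_count mult_le ε hε

end Pool.Agent.helper78.ED
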